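import Mathlib
import Pool.Agent.H617R3.AP.Defs
import Pool.Agent.TH106.AP3
import Pool.Agent.N524.Szem

/-!
# The function `r k`: Szemerédi's theorem, runs, linear recurrences, generalised polynomials
-/

set_option autoImplicit false

open Filter Finset Topology

namespace Pool.Agent.U343.Reg

open Pool.Agent.H617R3.AP

/-- Szemerédi's theorem for `r k` -/
theorem szem (k : ℕ) (hk : 1 ≤ k) : Tendsto (fun n : ℕ => (r k n : ℝ) / n) atTop (𝓝 0) := by
  classical
  have key : ∀ δ : ℝ, 0 < δ → ∀ᶠ n : ℕ in atTop, (r k n : ℝ) ≤ δ * n := by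
    intro δ hδ
    obtain ⟨s0, hs0⟩ := Pool.Agent.N524.szem_abs (G := ℤ) (fun s => Finset.Icc (-(s : ℤ)) s) 2
      (by norm_num)
      (fun s t hst => Finset.Icc_subset_Icc (by omega) (by omega))
      (fun v => ⟨v.natAbs, fun s u hu => by
        simp only [Finset.mem_Icc] at hu ⊢
        push_cast
        have h1 := abs_le.1 (le_refl |v|)
        constructor <;> omega⟩)
      (fun K => ⟨2 * K, fun s hs => by
        simp only [Int.card_Icc]
        have e1 : (((s + K : ℕ) : ℤ) + 1 - -((s + K : ℕ) : ℤ)).toNat = 2 * (s + K) + 1 := by omega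
        have e2 : ((s : ℤ) + 1 - -(s : ℤ)).toNat = 2 * s + 1 := by omega
        rw [e1, e2]
        have : (2 * K : ℝ) ≤ s := by exact_mod_cast hs
        push_cast
        linarith⟩)
      (fun s => ⟨0, by simp⟩)
      ((Finset.range k).image (fun i : ℕ => (i : ℤ))) (δ / 3) (by positivity)
    filter_upwards [eventually_ge_atTop (max s0 1)] with n hn
    have hn0 : s0 ≤ n := (le_max_left _ _).trans hn
    have hn1 : 1 ≤ n := (le_max_right _ _).trans hn
    by_contra hcon
    push Not at hcon
    obtain ⟨A, hA, hA2, hA3⟩ := exists_opt hk n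
    have hcard : (A.image (fun i : ℕ => (i : ℤ))).card = A.card :=
      Finset.card_image_of_injective _ (fun a b h => by exact_mod_cast h)
    obtain ⟨a, j, hj, haj⟩ := hs0 n hn0 (A.image (fun i : ℕ => (i : ℤ))) (by
      intro x hx
      rw [Finset.mem_image] at hx
      obtain ⟨y, hy, rfl⟩ := hx
      have := hA hy
      rw [Finset.mem_Icc] at this ⊢
      omega) (by
      rw [hcard, hA3, Int.card_Icc]
      have e2 : ((n : ℤ) + 1 - -(n : ℤ)).toNat = 2 * n + 1 := by omega
      rw [e2]
      push_cast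
      have : (1 : ℝ) ≤ n := by exact_mod_cast hn1
      nlinarith)
    have h1 : ∀ i < k, ∃ y ∈ A, (y : ℤ) = a + j * i := by
      intro i hi
      have := haj (i : ℤ) (Finset.mem_image.2 ⟨i, Finset.mem_range.2 hi, rfl⟩)
      rw [Finset.mem_image] at this
      obtain ⟨y, hy, hy2⟩ := this
      exact ⟨y, hy, by rw [hy2]; simp⟩
    obtain ⟨y0, hy0, hy0'⟩ := h1 0 (by omega)
    apply hA2 y0 j hj
    intro i hi
    obtain ⟨y, hy, hy'⟩ := h1 i hi
    have : y = y0 + i * j := by
      zify
      rw [hy', hy0']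
      push_cast
      ring
    rwa [← this]
  rw [Metric.tendsto_atTop]
  intro ε hε
  obtain ⟨N0, hN0⟩ := eventually_atTop.1 (key (ε / 2) (by positivity))
  refine ⟨max N0 1, fun n hn => ?_⟩
  have h1 := hN0 n ((le_max_left _ _).trans hn)
  have hn1 : (1 : ℝ) ≤ n := by exact_mod_cast (le_max_right N0 1).trans hn
  rw [Real.dist_eq, sub_zero, abs_of_nonneg (by positivity), div_lt_iff₀ (by linarith)]
  nlinarith

theorem r_succ_le {k : ℕ} (hk : 1 ≤ k) (n : ℕ) : r k (n + 1) ≤ r k n + 1 :=
  (r_add hk n 1).trans (Nat.add_le_add_left (r_le_self k 1) _)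

/-- long runs on which `r k` is constant -/
theorem runs {k : ℕ} (hk : 1 ≤ k) (l n₀ : ℕ) : ∃ n, n₀ ≤ n ∧ r k (n + l) = r k n := by
  by_contra hcon
  push Not at hcon
  have hl : l ≠ 0 := by
    rintro rfl
    exact hcon n₀ le_rfl rfl
  have h1 : ∀ n, n₀ ≤ n → r k n + 1 ≤ r k (n + l) := fun n hn =>
    lt_of_le_of_ne (r_mono (by omega)) (Ne.symm (hcon n hn))
  have h2 : ∀ j, j ≤ r k (n₀ + j * l) := by
    intro j
    induction j with
    | zero => omega
    | succ j ih =>
      have := h1 (n₀ + j * l) (by omega)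
      have e : n₀ + (j + 1) * l = n₀ + j * l + l := by ring
      rw [e]
      omega
  have h3 := (szem k hk).eventually_lt_const (show (0 : ℝ) < 1 / (2 * l) by positivity)
  obtain ⟨N, hN⟩ := eventually_atTop.1 h3
  set j := N + n₀ + 1 with hj
  have hl1 : 1 ≤ l := by omega
  have h4 : N ≤ n₀ + j * l := by nlinarith
  have h5 := hN _ h4
  have hpos : (0 : ℝ) < ((n₀ + j * l : ℕ) : ℝ) := by
    have : 0 < n₀ + j * l := by positivity
    exact_mod_cast this
  rw [div_lt_iff₀ hpos] at h5
  have h6 : (j : ℝ) ≤ r k (n₀ + j * l) := by exact_mod_cast h2 j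
  have h7 : n₀ ≤ j * l := by nlinarith
  have h8 : ((n₀ + j * l : ℕ) : ℝ) ≤ 2 * (j * l) := by
    have : n₀ + j * l ≤ 2 * (j * l) := by omega
    exact_mod_cast this
  have hlR : (0 : ℝ) < l := by exact_mod_cast hl1
  have h9 : 1 / (2 * (l : ℝ)) * ((n₀ + j * l : ℕ) : ℝ) ≤ j := by
    calc 1 / (2 * (l : ℝ)) * ((n₀ + j * l : ℕ) : ℝ) ≤ 1 / (2 * (l : ℝ)) * (2 * (j * l)) :=
          mul_le_mul_of_nonneg_left h8 (by positivity)
      _ = j := by field_simp
  linarith

/-- a run of length at least `l` followed by a jump -/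
theorem jumps {k : ℕ} (hk : 3 ≤ k) (l n₀ : ℕ) : ∃ p, n₀ + l ≤ p ∧ r k (p + 1) = r k p + 1 ∧
    ∀ i ≤ l, r k (p - i) = r k p := by
  obtain ⟨n, hn, hn2⟩ := runs (k := k) (by omega) l n₀
  have hex : ∃ q, n + l ≤ q ∧ r k (q + 1) ≠ r k q := by
    by_contra hcon
    push Not at hcon
    have h1 : ∀ j, r k (n + l + j) = r k (n + l) := by
      intro j
      induction j with
      | zero => rfl
      | succ j ih => rw [← add_assoc, hcon _ (by omega), ih]
    have h2 := (Pool.Agent.TH106.AP3.tendsto_r hk).eventually_gt_atTop (r k (n + l) : ℝ)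
    obtain ⟨M, hM⟩ := eventually_atTop.1 h2
    have h3 := hM (n + l + M) (by omega)
    rw [h1] at h3
    exact lt_irrefl _ h3
  classical
  set p := Nat.find hex with hp
  obtain ⟨hp1, hp2⟩ := Nat.find_spec hex
  rw [← hp] at hp1 hp2
  have hconst : ∀ j, n + l + j ≤ p → r k (n + l + j) = r k (n + l) := by
    intro j
    induction j with
    | zero => intro _; rfl
    | succ j ih =>
      intro hj
      have h1 := Nat.find_min hex (m := n + l + j) (by omega)
      have h2 : r k (n + l + j + 1) = r k (n + l + j) := by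
        by_contra h
        exact h1 ⟨by omega, h⟩
      rw [← add_assoc, h2, ih (by omega)]
  have hpr : r k p = r k (n + l) := by
    have := hconst (p - (n + l)) (by omega)
    rwa [Nat.add_sub_cancel' hp1] at this
  refine ⟨p, by omega, ?_, ?_⟩
  · have h1 : r k p ≤ r k (p + 1) := r_mono (by omega)
    have h2 := r_succ_le (k := k) (by omega) p
    omega
  · intro i hi
    have h1 : r k (p - i) ≤ r k p := r_mono (by omega)
    have h2 : r k n ≤ r k (p - i) := r_mono (by omega)
    omega

theorem abel (a R : ℕ → ℂ) (d : ℕ) : ∑ i ∈ range (d + 1), a i * R i =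
    (∑ i ∈ Ico 0 (d + 1), a i) * R 0 +
      ∑ j ∈ range d, (∑ i ∈ Ico (j + 1) (d + 1), a i) * (R (j + 1) - R j) := by
  induction d with
  | zero => simp
  | succ d ih =>
    have h1 : ∀ j ∈ range d, (∑ i ∈ Ico (j + 1) (d + 1 + 1), a i) * (R (j + 1) - R j) =
        (∑ i ∈ Ico (j + 1) (d + 1), a i) * (R (j + 1) - R j) + a (d + 1) * (R (j + 1) - R j) := by
      intro j hj
      rw [mem_range] at hj
      rw [Finset.sum_Ico_succ_top (by omega)]
      ring
    rw [Finset.sum_range_succ, ih, Finset.sum_range_succ (fun j => _ * (R (j + 1) - R j)),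
      Finset.sum_congr rfl h1, Finset.sum_add_distrib, ← Finset.mul_sum, Finset.sum_range_sub,
      Finset.sum_Ico_succ_top (by omega : 0 ≤ d + 1), Finset.sum_Ico_succ_top (le_refl (d + 1)),
      Finset.Ico_self]
    simp only [Finset.sum_empty, zero_add]
    ring

theorem r_ne {k : ℕ} (hk : 3 ≤ k) {n : ℕ} (hn : 1 ≤ n) : (r k n : ℂ) ≠ 0 := by
  have h2 := behrend hk n
  have h3 : (0 : ℝ) < n := by exact_mod_cast hn
  have h4 : (0 : ℝ) < r k n := lt_of_lt_of_le (mul_pos h3 (Real.exp_pos _)) h2
  have h5 : r k n ≠ 0 := by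
    intro h
    rw [h] at h4
    simp at h4
  exact_mod_cast h5

/-- **Linear recurrences.** -/
theorem recurrence {k : ℕ} (hk : 3 ≤ k) (H : AddSubgroup (ℕ → ℂ))
    (hH : ∀ c ∈ H, (∀ᶠ n in atTop, c n = 0) ∨ ∀ᶠ n in atTop, c n ≠ 0) (d : ℕ)
    (c : ℕ → ℕ → ℂ) (hc : ∀ i ≤ d, c i ∈ H)
    (hrec : ∀ᶠ n in atTop, ∑ i ∈ range (d + 1), c i n * (r k (n + i) : ℂ) = 0) :
    ∀ i ≤ d, ∀ᶠ n in atTop, c i n = 0 := by
  classical
  -- frequently zero implies eventually zero
  have hfreq : ∀ g ∈ H, (∃ᶠ n in atTop, g n = 0) → ∀ᶠ n in atTop, g n = 0 := by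
    intro g hg hfr
    rcases hH g hg with h | h
    · exact h
    · exact absurd h (by simpa [Filter.Frequently] using hfr)
  obtain ⟨n₁, hn₁⟩ := eventually_atTop.1 hrec
  let Q : ℕ → ℕ → ℂ := fun j n => ∑ i ∈ Ico j (d + 1), c i n
  have hQH : ∀ j, Q j ∈ H := by
    intro j
    have : Q j = ∑ i ∈ Ico j (d + 1), c i := by
      funext n
      simp [Q]
    rw [this]
    apply AddSubgroup.sum_mem
    intro i hi
    rw [mem_Ico] at hi
    exact hc i (by omega)
  have hid : ∀ n, n₁ ≤ n → Q 0 n * (r k n : ℂ) +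
      ∑ j ∈ range d, Q (j + 1) n * ((r k (n + (j + 1)) : ℂ) - r k (n + j)) = 0 := by
    intro n hn
    have h1 := hn₁ n hn
    rw [abel (fun i => c i n) (fun i => (r k (n + i) : ℂ)) d] at h1
    exact h1
  -- the sum of all coefficients
  have hQ0 : ∀ᶠ n in atTop, Q 0 n = 0 := by
    apply hfreq _ (hQH 0)
    rw [frequently_atTop]
    intro M
    obtain ⟨n, hn, hrun⟩ := runs (k := k) (by omega) d (M + n₁ + 1)
    refine ⟨n, by omega, ?_⟩
    have hconst : ∀ i ≤ d, r k (n + i) = r k n := by
      intro i hi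
      have h1 : r k n ≤ r k (n + i) := r_mono (by omega)
      have h2 : r k (n + i) ≤ r k (n + d) := r_mono (by omega)
      omega
    have h1 := hid n (by omega)
    have h2 : ∑ j ∈ range d, Q (j + 1) n * ((r k (n + (j + 1)) : ℂ) - r k (n + j)) = 0 := by
      apply Finset.sum_eq_zero
      intro j hj
      rw [mem_range] at hj
      rw [hconst (j + 1) (by omega), hconst j (by omega), sub_self, mul_zero]
    rw [h2, add_zero] at h1
    rcases mul_eq_zero.1 h1 with h3 | h3
    · exact h3
    · exact absurd h3 (r_ne hk (by omega))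
  -- the other partial sums, from the top
  have hQ : ∀ t, ∀ j, j + t = d → 0 < j → ∀ᶠ n in atTop, Q j n = 0 := by
    intro t
    induction t using Nat.strong_induction_on with
    | _ t ih =>
      intro j hjt hj0
      apply hfreq _ (hQH j)
      rw [frequently_atTop]
      intro M
      have hlater : ∀ᶠ n in atTop, ∀ s ∈ range (d + 1), j < s → Q s n = 0 := by
        rw [Filter.eventually_all_finset]
        intro s hs
        rw [mem_range] at hs
        by_cases hjs : j < s
        · filter_upwards [ih (d - s) (by omega) s (by omega) (by omega)] with n hn _ using hn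
        · exact Eventually.of_forall fun n h => absurd h hjs
      obtain ⟨n₂, hn₂⟩ := eventually_atTop.1 hlater
      obtain ⟨n₃, hn₃⟩ := eventually_atTop.1 hQ0
      obtain ⟨p, hp1, hp2, hp3⟩ := jumps hk (d + 1) (M + n₁ + n₂ + n₃)
      set n := p + 1 - j with hn
      refine ⟨n, by omega, ?_⟩
      have hidn := hid n (by omega)
      have hlat := hn₂ n (by omega)
      rw [hn₃ n (by omega), zero_mul, zero_add] at hidn
      have hlow : ∀ i < j, r k (n + i) = r k p := by
        intro i hi
        rw [← hp3 (j - 1 - i) (by omega)]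
        congr 1
        omega
      rw [Finset.sum_eq_single (j - 1)] at hidn
      · rw [show j - 1 + 1 = j by omega, show n + j = p + 1 by omega, hp2,
          hlow (j - 1) (by omega)] at hidn
        push_cast at hidn
        simpa using hidn
      · intro s hs hsj
        rw [mem_range] at hs
        rcases Nat.lt_or_ge (s + 1) j with h | h
        · rw [hlow (s + 1) h, hlow s (by omega), sub_self, mul_zero]
        · rw [hlat (s + 1) (by rw [mem_range]; omega) (by omega), zero_mul]
      · intro h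
        exact absurd (mem_range.2 (by omega)) h
  have hQall : ∀ j ≤ d + 1, ∀ᶠ n in atTop, Q j n = 0 := by
    intro j hj
    rcases Nat.eq_zero_or_pos j with rfl | h0
    · exact hQ0
    · rcases Nat.lt_or_ge d j with h | h
      · refine Eventually.of_forall fun n => ?_
        simp only [Q]
        rw [Finset.Ico_eq_empty (by omega), Finset.sum_empty]
      · exact hQ (d - j) j (by omega) h0
  intro i hi
  filter_upwards [hQall i (by omega), hQall (i + 1) (by omega)] with n h1 h2
  have h3 : Q i n = c i n + Q (i + 1) n := by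
    simp only [Q]
    rw [Finset.sum_eq_sum_Ico_succ_bot (by omega)]
  rw [h1, h2, add_zero] at h3
  exact h3.symm

end Pool.Agent.U343.Reg
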