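import Mathlib

/-!
# Regular sequences: small values at one scale force a power saving
-/

set_option autoImplicit false

open Filter Finset

namespace Pool.Agent.U343.Reg

/-- the `b`-kernel of a sequence: its restrictions to the progressions `b ^ e n + r`, `r < b ^ e` -/
def kernel (b : ℕ) (f : ℕ → ℂ) : Set (ℕ → ℂ) :=
  {g | ∃ e r : ℕ, r < b ^ e ∧ g = fun n => f (b ^ e * n + r)}

/-- `f` is `b`-regular over `ℂ` (Allouche and Shallit): the `b`-kernel spans a space of finite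
dimension -/
def IsRegular (b : ℕ) (f : ℕ → ℂ) : Prop := (Submodule.span ℂ (kernel b f)).FG

/-- the map `n ↦ b ^ m n + ρ` on sequences -/
def T (b m ρ : ℕ) : (ℕ → ℂ) →ₗ[ℂ] (ℕ → ℂ) where
  toFun h := fun n => h (b ^ m * n + ρ)
  map_add' _ _ := rfl
  map_smul' _ _ := rfl

@[simp] theorem T_apply (b m ρ : ℕ) (h : ℕ → ℂ) (n : ℕ) : T b m ρ h n = h (b ^ m * n + ρ) := rfl

/-- forget the value at `0` -/
def res : (ℕ → ℂ) →ₗ[ℂ] (ℕ → ℂ) where
  toFun h := fun n => h (n + 1)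
  map_add' _ _ := rfl
  map_smul' _ _ := rfl

@[simp] theorem res_apply (h : ℕ → ℂ) (n : ℕ) : res h n = h (n + 1) := rfl

theorem self_mem (b : ℕ) (f : ℕ → ℂ) : f ∈ kernel b f := ⟨0, 0, by simp, by simp⟩

theorem T_kernel {b m ρ : ℕ} (hρ : ρ < b ^ m) {f g : ℕ → ℂ} (hg : g ∈ kernel b f) :
    T b m ρ g ∈ kernel b f := by
  obtain ⟨e, r, hr, rfl⟩ := hg
  refine ⟨e + m, b ^ e * ρ + r, ?_, ?_⟩
  · have h1 : b ^ e * ρ + b ^ e ≤ b ^ e * b ^ m := by
      have : b ^ e * (ρ + 1) ≤ b ^ e * b ^ m := Nat.mul_le_mul le_rfl hρ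
      linarith [this, Nat.mul_succ (b ^ e) ρ]
    rw [pow_add]
    omega
  · funext n
    simp only [T_apply]
    congr 1
    rw [pow_add]
    ring

theorem T_span {b m ρ : ℕ} (hρ : ρ < b ^ m) {f g : ℕ → ℂ}
    (hg : g ∈ Submodule.span ℂ (kernel b f)) : T b m ρ g ∈ Submodule.span ℂ (kernel b f) := by
  have h1 : Submodule.span ℂ (kernel b f) ≤ (Submodule.span ℂ (kernel b f)).comap (T b m ρ) := by
    rw [Submodule.span_le]
    intro x hx
    exact Submodule.subset_span (T_kernel hρ hx)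
  exact h1 hg

/-- a space of sequences of finite dimension is determined by finitely many values -/
theorem exists_eval (V : Submodule ℂ (ℕ → ℂ)) [FiniteDimensional ℂ V] :
    ∃ K : ℕ, ∀ h ∈ V, (∀ k < K, h k = 0) → h = 0 := by
  let F : ℕ → Submodule ℂ V := fun K =>
    { carrier := {h | ∀ k < K, (h : ℕ → ℂ) k = 0}
      add_mem' := fun {x y} hx hy k hk => by
        simp [hx k hk, hy k hk]
      zero_mem' := fun k _ => rfl
      smul_mem' := fun c x hx k hk => by
        simp [hx k hk] }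
  have hF : Antitone F := fun K L hKL h hh k hk => hh k (by omega)
  obtain ⟨K, hK⟩ := IsArtinian.monotone_stabilizes
    (⟨fun n => OrderDual.toDual (F n), fun a b h => hF h⟩ : ℕ →o (Submodule ℂ V)ᵒᵈ)
  refine ⟨K, fun h hh h0 => ?_⟩
  funext n
  have h1 : F K = F (max K (n + 1)) := hK (max K (n + 1)) (le_max_left _ _)
  have h2 : (⟨h, hh⟩ : V) ∈ F K := fun k hk => h0 k hk
  rw [h1] at h2
  exact h2 n (by omega)

/-- the size of the first values, without the value at `0` -/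
noncomputable def N (K : ℕ) (h : ℕ → ℂ) : ℝ := ‖fun k : Fin K => h (k + 1)‖

theorem N_nonneg (K : ℕ) (h : ℕ → ℂ) : 0 ≤ N K h := norm_nonneg _

theorem le_N {K k : ℕ} (hk : k < K) (h : ℕ → ℂ) : ‖h (k + 1)‖ ≤ N K h :=
  norm_le_pi_norm (fun k : Fin K => h (k + 1)) ⟨k, hk⟩

theorem N_le {K : ℕ} {h : ℕ → ℂ} {B : ℝ} (hB : 0 ≤ B) (H : ∀ k < K, ‖h (k + 1)‖ ≤ B) :
    N K h ≤ B := (pi_norm_le_iff_of_nonneg hB).2 fun k => H k k.2

/-- coordinates with respect to finitely many members of the kernel -/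
theorem exists_coord {b : ℕ} {f : ℕ → ℂ} (hf : IsRegular b f) :
    ∃ (D : ℕ) (g : Fin D → ℕ → ℂ) (K : ℕ) (C : ℝ), 0 ≤ C ∧ (∀ i, g i ∈ kernel b f) ∧
      ∀ h ∈ Submodule.span ℂ (kernel b f), ∃ c : Fin D → ℂ,
        (∀ n, 1 ≤ n → h n = ∑ i, c i * g i n) ∧ ∀ i, ‖c i‖ ≤ C * N K h := by
  classical
  obtain ⟨S, hS, hspan⟩ := (Submodule.fg_span_iff_fg_span_finset_subset _).1 hf
  let e := S.equivFin
  let g : Fin S.card → ℕ → ℂ := fun i => (e.symm i : ℕ → ℂ)
  have hrange : Set.range g = S := by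
    ext x
    constructor
    · rintro ⟨i, rfl⟩
      exact (e.symm i).2
    · intro hx
      exact ⟨e ⟨x, hx⟩, by simp [g]⟩
  let V : Submodule ℂ (ℕ → ℂ) := (Submodule.span ℂ (kernel b f)).map res
  have hfin : FiniteDimensional ℂ V := by
    have : FiniteDimensional ℂ (Submodule.span ℂ (kernel b f)) := Module.Finite.iff_fg.2 hf
    infer_instance
  obtain ⟨K, hK⟩ := exists_eval V
  -- evaluation
  let ev : V →ₗ[ℂ] (Fin K → ℂ) :=
    { toFun := fun h k => (h : ℕ → ℂ) k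
      map_add' := fun _ _ => rfl
      map_smul' := fun _ _ => rfl }
  have hev : LinearMap.ker ev = ⊥ := by
    rw [LinearMap.ker_eq_bot']
    intro h h0
    have := hK h h.2 (fun k hk => congrFun h0 ⟨k, hk⟩)
    exact Subtype.ext this
  -- combinations
  have hmem : ∀ i, res (g i) ∈ V := fun i =>
    Submodule.mem_map_of_mem (Submodule.subset_span (hS (e.symm i).2))
  let Φ : (Fin S.card → ℂ) →ₗ[ℂ] V :=
    Fintype.linearCombination ℂ (fun i => (⟨res (g i), hmem i⟩ : V))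
  have hΦ : LinearMap.range Φ = ⊤ := by
    rw [eq_top_iff]
    rintro ⟨h, hh⟩ -
    obtain ⟨h', hh', rfl⟩ := hh
    have h1 : h' ∈ Submodule.span ℂ (Set.range g) := by
      rw [hrange, ← hspan]; exact hh'
    rw [Submodule.mem_span_range_iff_exists_fun] at h1
    obtain ⟨c, rfl⟩ := h1
    refine ⟨c, ?_⟩
    apply Subtype.ext
    simp only [Φ, Fintype.linearCombination_apply]
    rw [map_sum]
    simp [Submodule.coe_sum]
  obtain ⟨Λ, hΛ⟩ := LinearMap.exists_leftInverse_of_injective ev hev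
  obtain ⟨σ, hσ⟩ := LinearMap.exists_rightInverse_of_surjective Φ hΦ
  let M : (Fin K → ℂ) →L[ℂ] (Fin S.card → ℂ) := LinearMap.toContinuousLinearMap (σ ∘ₗ Λ)
  refine ⟨S.card, g, K, ‖M‖, norm_nonneg _, fun i => hS (e.symm i).2, fun h hh => ?_⟩
  let v : V := ⟨res h, Submodule.mem_map_of_mem hh⟩
  refine ⟨σ v, ?_, ?_⟩
  · intro n hn
    have h1 : Φ (σ v) = v := by
      have := congrArg (fun q : V →ₗ[ℂ] V => q v) hσ
      simpa using this
    have h2 := congrArg (fun w : V => (w : ℕ → ℂ) (n - 1)) h1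
    simp only [Φ, Fintype.linearCombination_apply, Submodule.coe_sum] at h2
    simp only [Submodule.coe_smul, Finset.sum_apply, Pi.smul_apply, res_apply, smul_eq_mul, v] at h2
    rw [Nat.sub_add_cancel hn] at h2
    exact h2.symm
  · intro i
    have h1 : Λ (ev v) = v := by
      have := congrArg (fun q : V →ₗ[ℂ] V => q v) hΛ
      simpa using this
    have h2 : M (ev v) = σ v := by
      simp only [M, LinearMap.coe_toContinuousLinearMap', LinearMap.comp_apply, h1]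
    calc ‖σ v i‖ ≤ ‖σ v‖ := norm_le_pi_norm _ i
      _ = ‖M (ev v)‖ := by rw [h2]
      _ ≤ ‖M‖ * ‖ev v‖ := M.le_opNorm _
      _ = ‖M‖ * N K h := rfl

end Pool.Agent.U343.Reg
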