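import Mathlib
import Pool.Agent.U343.Reg

/-!
# Regular sequences: the gap at linear growth
-/

set_option autoImplicit false

open Filter Finset

namespace Pool.Agent.U343.Reg

theorem T_T (b m n ρ : ℕ) (h : ℕ → ℂ) :
    T b (m + n) ρ h = T b n (ρ / b ^ m) (T b m (ρ % b ^ m) h) := by
  funext k
  simp only [T_apply]
  congr 1
  rw [pow_add, mul_add, ← mul_assoc, add_assoc, Nat.div_add_mod]

/-- one step: small values at the scale `b ^ m` contract the kernel -/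
theorem step {b : ℕ} (hb : 2 ≤ b) {f : ℕ → ℂ} {D : ℕ} {g : Fin D → ℕ → ℂ} {K : ℕ} {C : ℝ}
    (hC : 0 ≤ C) {e r : Fin D → ℕ} {E : ℕ} (hE : ∀ i, e i ≤ E) (hr : ∀ i, r i < b ^ e i)
    (hg : ∀ i, g i = fun n => f (b ^ e i * n + r i))
    (H : ∀ h ∈ Submodule.span ℂ (kernel b f), ∃ c : Fin D → ℂ,
        (∀ n, 1 ≤ n → h n = ∑ i, c i * g i n) ∧ ∀ i, ‖c i‖ ≤ C * N K h)
    {m : ℕ} (ε : ℝ) (hε : 0 < ε) (hε1 : ε * (2 * D * C * (b ^ E * (K + 1) : ℕ)) ≤ 1)
    (hsmall : ∀ x : ℕ, b ^ m ≤ x → x ≤ b ^ E * (K + 1) * b ^ m → ‖f x‖ ≤ ε * x)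
    {ρ : ℕ} (hρ : ρ < b ^ m) {h : ℕ → ℂ} (hh : h ∈ Submodule.span ℂ (kernel b f)) :
    N K (T b m ρ h) ≤ (b : ℝ) ^ m / 2 * N K h := by
  have hb0 : 0 < b := by omega
  obtain ⟨c, hc1, hc2⟩ := H h hh
  have hN := N_nonneg K h
  apply N_le (by positivity)
  intro k hk
  rw [T_apply]
  set x := b ^ m * (k + 1) + ρ with hx
  have hbm : 0 < b ^ m := by positivity
  have hx1 : b ^ m ≤ x := by
    have : b ^ m * 1 ≤ b ^ m * (k + 1) := Nat.mul_le_mul le_rfl (by omega)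
    omega
  have hxK : x + 1 ≤ b ^ m * (K + 1) := by
    have : b ^ m * (k + 1 + 1) ≤ b ^ m * (K + 1) := Nat.mul_le_mul le_rfl (by omega)
    have h2 : b ^ m * (k + 1 + 1) = b ^ m * (k + 1) + b ^ m := by ring
    omega
  rw [hc1 x (by omega)]
  have hterm : ∀ i, ‖c i * g i x‖ ≤ C * N K h * (ε * ((b ^ E * (K + 1) : ℕ) * (b : ℝ) ^ m)) := by
    intro i
    rw [norm_mul]
    have hpos : 0 < b ^ e i := by positivity
    have hy1 : b ^ m ≤ b ^ e i * x + r i := by
      have : 1 * x ≤ b ^ e i * x := Nat.mul_le_mul hpos le_rfl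
      omega
    have hy2 : b ^ e i * x + r i ≤ b ^ E * (K + 1) * b ^ m := by
      have h1 : b ^ e i * (x + 1) ≤ b ^ E * (b ^ m * (K + 1)) :=
        Nat.mul_le_mul (Nat.pow_le_pow_right hb0 (hE i)) hxK
      have h2 := hr i
      have h3 : b ^ e i * (x + 1) = b ^ e i * x + b ^ e i := by ring
      have h4 : b ^ E * (b ^ m * (K + 1)) = b ^ E * (K + 1) * b ^ m := by ring
      omega
    have h5 : ‖g i x‖ ≤ ε * ((b ^ E * (K + 1) : ℕ) * (b : ℝ) ^ m) := by
      rw [hg i]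
      refine (hsmall _ hy1 hy2).trans ?_
      apply mul_le_mul_of_nonneg_left _ hε.le
      calc ((b ^ e i * x + r i : ℕ) : ℝ) ≤ ((b ^ E * (K + 1) * b ^ m : ℕ) : ℝ) := by
            exact_mod_cast hy2
        _ = _ := by push_cast; ring
    exact mul_le_mul (hc2 i) h5 (norm_nonneg _) (by positivity)
  calc ‖∑ i, c i * g i x‖ ≤ ∑ i, ‖c i * g i x‖ := norm_sum_le _ _
    _ ≤ ∑ _i : Fin D, C * N K h * (ε * ((b ^ E * (K + 1) : ℕ) * (b : ℝ) ^ m)) :=
        Finset.sum_le_sum fun i _ => hterm i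
    _ = (ε * (2 * D * C * (b ^ E * (K + 1) : ℕ))) * ((b : ℝ) ^ m / 2 * N K h) := by
        rw [Finset.sum_const, Finset.card_univ, Fintype.card_fin, nsmul_eq_mul]
        ring
    _ ≤ 1 * ((b : ℝ) ^ m / 2 * N K h) :=
        mul_le_mul_of_nonneg_right hε1 (by positivity)
    _ = _ := one_mul _

/-- iteration of a contraction of the kernel -/
theorem iterate {b : ℕ} (hb : 2 ≤ b) {f : ℕ → ℂ} {K m : ℕ}
    (H : ∀ ρ < b ^ m, ∀ h ∈ Submodule.span ℂ (kernel b f),
      N K (T b m ρ h) ≤ (b : ℝ) ^ m / 2 * N K h) (q : ℕ) :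
    ∀ ρ < b ^ (m * q), ∀ h ∈ Submodule.span ℂ (kernel b f),
      N K (T b (m * q) ρ h) ≤ ((b : ℝ) ^ m / 2) ^ q * N K h := by
  have hb0 : 0 < b := by omega
  induction q with
  | zero =>
    intro ρ hρ h hh
    have : ρ = 0 := by simpa using hρ
    subst this
    have h1 : T b (m * 0) 0 h = h := by
      funext n
      simp
    rw [h1]
    simp
  | succ q ih =>
    intro ρ hρ h hh
    have hbm : 0 < b ^ m := by positivity
    rw [show m * (q + 1) = m + m * q by ring, T_T]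
    have h1 : ρ / b ^ m < b ^ (m * q) := by
      rw [Nat.div_lt_iff_lt_mul hbm, ← pow_add]
      rwa [show m * q + m = m * (q + 1) by ring]
    have h2 : ρ % b ^ m < b ^ m := Nat.mod_lt _ hbm
    refine (ih _ h1 _ (T_span h2 hh)).trans ?_
    rw [pow_succ, mul_assoc]
    exact mul_le_mul_of_nonneg_left (H _ h2 h hh) (by positivity)

/-- the gap of regular sequences at linear growth: either the values are at least a constant times
`n` at every scale, or the sequence is bounded by a power of `n` with exponent below one -/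
theorem gap {b : ℕ} (hb : 2 ≤ b) {f : ℕ → ℂ} (hf : IsRegular b f) :
    (∃ L : ℕ, ∃ ε : ℝ, 0 < ε ∧ ∀ x : ℕ, 1 ≤ x → ∃ n : ℕ, x ≤ n ∧ n ≤ L * x ∧ ε * n ≤ ‖f n‖) ∨
    ∃ δ C : ℝ, 0 < δ ∧ δ ≤ 1 ∧ 0 < C ∧ ∀ n : ℕ, 1 ≤ n → ‖f n‖ ≤ C * (n : ℝ) ^ (1 - δ) := by
  classical
  have hb0 : 0 < b := by omega
  have hbR : (0 : ℝ) < b := by exact_mod_cast hb0
  obtain ⟨D, g, K, C, hC, hg, H⟩ := exists_coord hf
  choose e r hr hge using hg
  obtain ⟨E, hE⟩ : ∃ E, ∀ i, e i ≤ E := ⟨∑ i, e i, fun i =>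
    Finset.single_le_sum (fun _ _ => Nat.zero_le _) (Finset.mem_univ i)⟩
  set L0 := b ^ E * (K + 1) with hL0
  set A : ℝ := 2 * D * C * L0 with hA
  have hA0 : 0 ≤ A := by positivity
  set ε : ℝ := 1 / (A + 1) with hεdef
  have hε : 0 < ε := by positivity
  have hε1 : ε * A ≤ 1 := by
    rw [hεdef, div_mul_eq_mul_div, one_mul, div_le_one (by positivity)]
    linarith
  by_cases hcase : ∀ x : ℕ, 1 ≤ x → ∃ n : ℕ, x ≤ n ∧ n ≤ (b * L0) * x ∧ ε * n ≤ ‖f n‖
  · exact Or.inl ⟨b * L0, ε, hε, hcase⟩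
  · right
    push Not at hcase
    obtain ⟨x, hx, hsm⟩ := hcase
    -- the scale
    obtain ⟨m, hm0, hm1, hm2⟩ : ∃ m, 1 ≤ m ∧ x ≤ b ^ m ∧ b ^ m ≤ b * x := by
      refine ⟨Nat.log b x + 1, by omega, (Nat.lt_pow_succ_log_self (by omega) x).le, ?_⟩
      rw [pow_succ, mul_comm]
      exact Nat.mul_le_mul le_rfl (Nat.pow_log_le_self b (by omega))
    have hsmall : ∀ y : ℕ, b ^ m ≤ y → y ≤ L0 * b ^ m → ‖f y‖ ≤ ε * y := by
      intro y hy1 hy2
      apply (hsm y (hm1.trans hy1) _).le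
      calc y ≤ L0 * b ^ m := hy2
        _ ≤ L0 * (b * x) := Nat.mul_le_mul le_rfl hm2
        _ = b * L0 * x := by ring
    have hstep : ∀ ρ < b ^ m, ∀ h ∈ Submodule.span ℂ (kernel b f),
        N K (T b m ρ h) ≤ (b : ℝ) ^ m / 2 * N K h := fun ρ hρ h hh =>
      step hb hC hE hr hge H ε hε hε1 hsmall hρ hh
    have hiter := iterate hb hstep
    -- a bound for the first values of the basis
    obtain ⟨G, hG0, hG⟩ : ∃ G : ℝ, 0 ≤ G ∧ ∀ i, ∀ t < b ^ m, ‖g i t‖ ≤ G := by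
      refine ⟨∑ i, ∑ t ∈ range (b ^ m), ‖g i t‖, by positivity, fun i t ht => ?_⟩
      calc ‖g i t‖ ≤ ∑ t ∈ range (b ^ m), ‖g i t‖ :=
            Finset.single_le_sum (f := fun t => ‖g i t‖) (fun _ _ => norm_nonneg _)
              (Finset.mem_range.2 ht)
        _ ≤ ∑ i, ∑ t ∈ range (b ^ m), ‖g i t‖ :=
            Finset.single_le_sum (f := fun i => ∑ t ∈ range (b ^ m), ‖g i t‖)
              (fun _ _ => by positivity) (Finset.mem_univ i)
    have hbm2 : 2 ≤ b ^ m := by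
      calc 2 ≤ b := hb
        _ = b ^ 1 := (pow_one b).symm
        _ ≤ b ^ m := Nat.pow_le_pow_right hb0 hm0
    have hbm2R : (2 : ℝ) ≤ (b : ℝ) ^ m := by exact_mod_cast hbm2
    set B : ℝ := (b : ℝ) ^ m with hB
    have hB0 : 0 < B := by positivity
    have hlogB : 0 < Real.log B := Real.log_pos (by linarith)
    set δ : ℝ := Real.log 2 / Real.log B with hδ
    have hδ0 : 0 < δ := div_pos (Real.log_pos (by norm_num)) hlogB
    have hδ1 : δ ≤ 1 := by
      rw [hδ, div_le_one hlogB]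
      exact Real.log_le_log (by norm_num) hbm2R
    have hBδ : B ^ δ = 2 := by
      rw [Real.rpow_def_of_pos hB0, hδ, mul_div_cancel₀ _ hlogB.ne', Real.exp_log (by norm_num)]
    set Q : ℝ := D * (C * N K f * G) with hQ
    have hNf := N_nonneg K f
    have hQ0 : 0 ≤ Q := by positivity
    refine ⟨δ, Q + 1, hδ0, hδ1, by positivity, fun n hn => ?_⟩
    set q := Nat.log (b ^ m) n with hq
    have hq1 : b ^ (m * q) ≤ n := by
      rw [pow_mul]
      exact Nat.pow_log_le_self _ (by omega)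
    have hq2 : n < b ^ (m * q) * b ^ m := by
      have := Nat.lt_pow_succ_log_self (b := b ^ m) (by omega) n
      rw [← hq, pow_succ] at this
      rwa [pow_mul]
    have hpos : 0 < b ^ (m * q) := by positivity
    set ρ := n % b ^ (m * q) with hρ
    set t := n / b ^ (m * q) with ht
    have hρ1 : ρ < b ^ (m * q) := Nat.mod_lt _ hpos
    have ht1 : 1 ≤ t := (Nat.one_le_div_iff hpos).2 hq1
    have ht2 : t < b ^ m := by
      rw [ht, Nat.div_lt_iff_lt_mul hpos, mul_comm]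
      exact hq2
    have hfn : f n = T b (m * q) ρ f t := by
      rw [T_apply, hρ, ht, Nat.div_add_mod]
    have hfmem : f ∈ Submodule.span ℂ (kernel b f) := Submodule.subset_span (self_mem b f)
    obtain ⟨c, hc1, hc2⟩ := H _ (T_span hρ1 hfmem)
    have hNq := hiter q ρ hρ1 f hfmem
    have hpow : (B / 2) ^ q ≤ (n : ℝ) ^ (1 - δ) := by
      have h1 : B / 2 = B ^ (1 - δ) := by
        rw [Real.rpow_sub hB0, Real.rpow_one, hBδ]
      rw [h1, ← Real.rpow_natCast, ← Real.rpow_mul hB0.le, mul_comm, Real.rpow_mul hB0.le,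
        Real.rpow_natCast]
      apply Real.rpow_le_rpow (by positivity) _ (by linarith)
      rw [hB, ← pow_mul]
      exact_mod_cast hq1
    rw [hfn, hc1 t ht1]
    have hn0 : (0 : ℝ) ≤ (n : ℝ) ^ (1 - δ) := by positivity
    calc ‖∑ i, c i * g i t‖ ≤ ∑ i, ‖c i * g i t‖ := norm_sum_le _ _
      _ ≤ ∑ _i : Fin D, (C * ((B / 2) ^ q * N K f)) * G := by
          apply Finset.sum_le_sum
          intro i _
          rw [norm_mul]
          apply mul_le_mul _ (hG i t ht2) (norm_nonneg _) (by positivity)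
          exact (hc2 i).trans (mul_le_mul_of_nonneg_left hNq hC)
      _ = Q * (B / 2) ^ q := by
          rw [Finset.sum_const, Finset.card_univ, Fintype.card_fin, nsmul_eq_mul, hQ]
          ring
      _ ≤ Q * (n : ℝ) ^ (1 - δ) := mul_le_mul_of_nonneg_left hpow hQ0
      _ ≤ (Q + 1) * (n : ℝ) ^ (1 - δ) := by nlinarith

end Pool.Agent.U343.Reg
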