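import Mathlib
import Pool.Agent.U343.Reg3

/-!
# The function `r k`: generalised polynomials, comparison with powers, equations of Mahler type
-/

set_option autoImplicit false

open Filter Finset Topology

namespace Pool.Agent.U343.Reg

open Pool.Agent.H617R3.AP

theorem tend_aux (c γ : ℝ) (hγ : 0 < γ) :
    Tendsto (fun n : ℕ => γ * Real.log n - c * √(Real.log n)) atTop atTop := by
  have h1 : Tendsto (fun n : ℕ => √(Real.log (n : ℝ))) atTop atTop :=
    Real.tendsto_sqrt_atTop.comp (Real.tendsto_log_atTop.comp tendsto_natCast_atTop_atTop)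
  have h2 : Tendsto (fun n : ℕ => γ * √(Real.log (n : ℝ)) - c) atTop atTop := by
    have := (h1.const_mul_atTop hγ)
    exact tendsto_atTop_add_const_right _ (-c) this
  have h3 := h1.atTop_mul_atTop₀ h2
  refine h3.congr' ?_
  filter_upwards [eventually_ge_atTop 1] with n hn
  have h4 : 0 ≤ Real.log (n : ℝ) := Real.log_nonneg (by exact_mod_cast hn)
  have h5 := Real.mul_self_sqrt h4
  calc √(Real.log (n : ℝ)) * (γ * √(Real.log n) - c)
      = γ * (√(Real.log n) * √(Real.log n)) - c * √(Real.log n) := by ring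
    _ = _ := by rw [h5]

/-- comparison with smaller powers -/
theorem power_le {k : ℕ} (hk : 3 ≤ k) (C : ℝ) {δ : ℝ} (h0 : 0 < δ) (h1 : δ ≤ 1) :
    ∀ᶠ n : ℕ in atTop, C * (n : ℝ) ^ (1 - δ) ≤ (r k n : ℝ) ^ (1 - δ / 2) := by
  have h2 := (tend_aux (4 * (1 - δ / 2)) (δ / 2) (by positivity)).eventually_ge_atTop C
  filter_upwards [h2, eventually_ge_atTop 1] with n hn hn1
  have hnR : (0 : ℝ) < n := by exact_mod_cast hn1
  have hb := behrend hk n
  have hC : C ≤ Real.exp (δ / 2 * Real.log n - 4 * (1 - δ / 2) * √(Real.log n)) :=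
    hn.trans (by
      have := Real.add_one_le_exp (δ / 2 * Real.log n - 4 * (1 - δ / 2) * √(Real.log n))
      linarith)
  calc C * (n : ℝ) ^ (1 - δ)
      ≤ Real.exp (δ / 2 * Real.log n - 4 * (1 - δ / 2) * √(Real.log n)) * (n : ℝ) ^ (1 - δ) :=
        mul_le_mul_of_nonneg_right hC (by positivity)
    _ = ((n : ℝ) * Real.exp (-4 * √(Real.log n))) ^ (1 - δ / 2) := by
        rw [Real.rpow_def_of_pos hnR, Real.rpow_def_of_pos (by positivity),
          Real.log_mul hnR.ne' (Real.exp_pos _).ne', Real.log_exp, ← Real.exp_add]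
        congr 1
        ring
    _ ≤ (r k n : ℝ) ^ (1 - δ / 2) :=
        Real.rpow_le_rpow (by positivity) hb (by linarith)

/-- `n ^ γ (r k n / n) ^ θ` tends to zero in the two cases needed -/
theorem term_tend {k : ℕ} (hk : 3 ≤ k) {γ θ : ℝ} (h : (γ = 0 ∧ 0 < θ) ∨ γ < 0) :
    Tendsto (fun n : ℕ => (n : ℝ) ^ γ * ((r k n : ℝ) / n) ^ θ) atTop (𝓝 0) := by
  rcases h with ⟨rfl, hθ⟩ | hγ
  · have h1 := (szem k (by omega)).rpow_const (p := θ) (Or.inr hθ.le)
    rw [Real.zero_rpow hθ.ne'] at h1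
    simpa using h1
  · have h1 := tend_aux (4 * |θ|) (-γ) (by linarith)
    have h2 : Tendsto (fun n : ℕ => Real.exp (-(-γ * Real.log n - 4 * |θ| * √(Real.log n))))
        atTop (𝓝 0) := Real.tendsto_exp_neg_atTop_nhds_zero.comp h1
    refine squeeze_zero' (Eventually.of_forall fun n => by positivity) ?_ h2
    filter_upwards [eventually_ge_atTop 1] with n hn
    have hnR : (0 : ℝ) < n := by exact_mod_cast hn
    have hb := behrend hk n
    set u : ℝ := (r k n : ℝ) / n with hu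
    have hu1 : u ≤ 1 := by
      rw [hu, div_le_one hnR]
      exact_mod_cast r_le_self k n
    have hu2 : Real.exp (-4 * √(Real.log n)) ≤ u := by
      rw [hu, le_div_iff₀ hnR]
      linarith
    have hu0 : 0 < u := (Real.exp_pos _).trans_le hu2
    have hlu : -4 * √(Real.log n) ≤ Real.log u := (Real.le_log_iff_exp_le hu0).2 hu2
    have hlu0 : Real.log u ≤ 0 := Real.log_nonpos hu0.le hu1
    have h3 : Real.log u * θ ≤ 4 * |θ| * √(Real.log n) := by
      have h4 : Real.log u * θ ≤ |Real.log u| * |θ| := by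
        rw [← abs_mul]; exact le_abs_self _
      have h5 : |Real.log u| ≤ 4 * √(Real.log n) := by
        rw [abs_of_nonpos hlu0]; linarith
      calc Real.log u * θ ≤ |Real.log u| * |θ| := h4
        _ ≤ 4 * √(Real.log n) * |θ| := mul_le_mul_of_nonneg_right h5 (abs_nonneg _)
        _ = _ := by ring
    rw [Real.rpow_def_of_pos hnR, Real.rpow_def_of_pos hu0, ← Real.exp_add]
    apply Real.exp_le_exp.2
    linarith

/-- **Generalised polynomials** in `n` and `r k n` do not vanish for large `n`. -/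
theorem genpoly {k : ℕ} (hk : 3 ≤ k) (S : Finset (ℝ × ℝ)) (hS : S.Nonempty) (a : ℝ × ℝ → ℂ)
    (ha : ∀ p ∈ S, a p ≠ 0) :
    ∀ᶠ n : ℕ in atTop, ∑ p ∈ S, a p * (((n : ℝ) ^ p.1 * (r k n : ℝ) ^ p.2 : ℝ) : ℂ) ≠ 0 := by
  classical
  obtain ⟨p1, hp1, hmax⟩ := Finset.exists_max_image S (fun p => p.1 + p.2) hS
  set s := p1.1 + p1.2 with hs
  have hne : (S.filter (fun p => p.1 + p.2 = s)).Nonempty := ⟨p1, by simp [hp1, hs]⟩
  obtain ⟨p0, hp0, hmin⟩ := Finset.exists_min_image _ (fun p : ℝ × ℝ => p.2) hne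
  rw [mem_filter] at hp0
  have hratio : ∀ p ∈ S, p ≠ p0 →
      Tendsto (fun n : ℕ => (n : ℝ) ^ (p.1 + p.2 - s) * ((r k n : ℝ) / n) ^ (p.2 - p0.2))
        atTop (𝓝 0) := by
    intro p hp hpp
    apply term_tend hk
    rcases lt_or_eq_of_le (hmax p hp) with h | h
    · right; linarith
    · left
      refine ⟨by rw [h]; ring, ?_⟩
      have h1 := hmin p (by rw [mem_filter]; exact ⟨hp, h⟩)
      rcases lt_or_eq_of_le h1 with h2 | h2
      · linarith
      · exfalso
        apply hpp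
        have h3 := hp0.2
        exact Prod.ext (by linarith) h2.symm
  have hT : Tendsto (fun n : ℕ => ∑ p ∈ S, a p *
      (((n : ℝ) ^ (p.1 + p.2 - s) * ((r k n : ℝ) / n) ^ (p.2 - p0.2) : ℝ) : ℂ)) atTop
      (𝓝 (∑ p ∈ S, if p = p0 then a p0 else 0)) := by
    apply tendsto_finsetSum
    intro p hp
    by_cases hpp : p = p0
    · subst hpp
      rw [if_pos rfl]
      have : ∀ n : ℕ, a p * (((n : ℝ) ^ (p.1 + p.2 - s) * ((r k n : ℝ) / n) ^ (p.2 - p.2) : ℝ) : ℂ)
          = a p := by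
        intro n
        rw [hp0.2, sub_self, sub_self, Real.rpow_zero, Real.rpow_zero]
        simp
      simp only [this]
      exact tendsto_const_nhds
    · rw [if_neg hpp]
      have h1 := (Complex.continuous_ofReal.tendsto 0).comp (hratio p hp hpp)
      have h2 := h1.const_mul (a p)
      simpa using h2
  rw [Finset.sum_ite_eq' S p0, if_pos hp0.1] at hT
  have hne0 := hT.eventually_ne (ha p0 hp0.1)
  filter_upwards [hne0, eventually_ge_atTop 1] with n hn hn1 h
  apply hn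
  have hnR : (0 : ℝ) < n := by exact_mod_cast hn1
  have hr : (0 : ℝ) < r k n := lt_of_lt_of_le (mul_pos hnR (Real.exp_pos _)) (behrend hk n)
  have hmain : (((n : ℝ) ^ p0.1 * (r k n : ℝ) ^ p0.2 : ℝ) : ℂ) ≠ 0 := by
    have : (0 : ℝ) < (n : ℝ) ^ p0.1 * (r k n : ℝ) ^ p0.2 := by positivity
    exact_mod_cast this.ne'
  have hterm : ∀ p ∈ S, a p * (((n : ℝ) ^ p.1 * (r k n : ℝ) ^ p.2 : ℝ) : ℂ) =
      a p * (((n : ℝ) ^ (p.1 + p.2 - s) * ((r k n : ℝ) / n) ^ (p.2 - p0.2) : ℝ) : ℂ) *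
        (((n : ℝ) ^ p0.1 * (r k n : ℝ) ^ p0.2 : ℝ) : ℂ) := by
    intro p _
    rw [mul_assoc, ← Complex.ofReal_mul]
    congr 2
    rw [Real.div_rpow hr.le hnR.le, Real.rpow_sub hnR, Real.rpow_add hnR, Real.rpow_sub hr,
      Real.rpow_sub hnR, ← hp0.2, Real.rpow_add hnR]
    have e1 := (Real.rpow_pos_of_pos hnR p0.1).ne'
    have e2 := (Real.rpow_pos_of_pos hnR p0.2).ne'
    have e3 := (Real.rpow_pos_of_pos hnR p.2).ne'
    have e4 := (Real.rpow_pos_of_pos hr p0.2).ne'
    field_simp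
  rw [Finset.sum_congr rfl hterm, ← Finset.sum_mul] at h
  exact (mul_eq_zero.1 h).resolve_right hmain

/-! ### constant coefficients -/

/-- one step -/
theorem one_step {b ρ C : ℝ} (hρ : 0 < ρ) (hρb : ρ < b) (hC : 0 ≤ C) (l : ℂ) (v : ℕ → ℂ)
    (hv : Tendsto (fun m : ℕ => v m / (b : ℂ) ^ m) atTop (𝓝 0))
    (h : ∀ m, ‖v (m + 1) - l * v m‖ ≤ C * ρ ^ m) :
    ∃ C' ρ' : ℝ, 0 < ρ' ∧ ρ' < b ∧ 0 ≤ C' ∧ ∀ m, ‖v m‖ ≤ C' * ρ' ^ m := by
  have hb : 0 < b := hρ.trans hρb
  rcases lt_or_ge ‖l‖ b with hl | hl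
  · obtain ⟨ρ', h1, h2⟩ := exists_between (max_lt hl hρb)
    have hl' : ‖l‖ < ρ' := (le_max_left _ _).trans_lt h1
    have hρ' : ρ < ρ' := (le_max_right _ _).trans_lt h1
    refine ⟨max ‖v 0‖ (C / (ρ' - ‖l‖)), ρ', hρ.trans hρ', h2, le_max_of_le_left (norm_nonneg _), ?_⟩
    set A := max ‖v 0‖ (C / (ρ' - ‖l‖)) with hA
    have hA1 : C ≤ A * (ρ' - ‖l‖) := by
      rw [← div_le_iff₀ (by linarith)]
      exact le_max_right _ _
    intro m
    induction m with
    | zero => simp [hA]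
    | succ m ih =>
      have h3 : ‖v (m + 1)‖ ≤ ‖l‖ * ‖v m‖ + C * ρ ^ m := by
        have : v (m + 1) = l * v m + (v (m + 1) - l * v m) := by ring
        rw [this]
        refine (norm_add_le _ _).trans ?_
        rw [norm_mul]
        exact add_le_add le_rfl (h m)
      have h4 : ρ ^ m ≤ ρ' ^ m := pow_le_pow_left₀ hρ.le hρ'.le m
      have h5 : 0 < ρ' ^ m := pow_pos (hρ.trans hρ') m
      calc ‖v (m + 1)‖ ≤ ‖l‖ * ‖v m‖ + C * ρ ^ m := h3
        _ ≤ ‖l‖ * (A * ρ' ^ m) + C * ρ' ^ m :=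
            add_le_add (mul_le_mul_of_nonneg_left ih (norm_nonneg _))
              (mul_le_mul_of_nonneg_left h4 hC)
        _ ≤ ‖l‖ * (A * ρ' ^ m) + A * (ρ' - ‖l‖) * ρ' ^ m :=
            add_le_add le_rfl (mul_le_mul_of_nonneg_right hA1 h5.le)
        _ = A * ρ' ^ (m + 1) := by ring
  · refine ⟨C / (‖l‖ - ρ), ρ, hρ, hρb, div_nonneg hC (by linarith), ?_⟩
    by_contra hcon
    push Not at hcon
    obtain ⟨m, hm⟩ := hcon
    set A := C / (‖l‖ - ρ) with hA
    have hA1 : A * (‖l‖ - ρ) = C := div_mul_cancel₀ _ (by linarith)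
    set e := ‖v m‖ - A * ρ ^ m with he
    have he0 : 0 < e := by linarith
    have hgrow : ∀ j, b ^ j * e ≤ ‖v (m + j)‖ - A * ρ ^ (m + j) := by
      intro j
      induction j with
      | zero => simp [he]
      | succ j ih =>
        have h3 : ‖l‖ * ‖v (m + j)‖ - C * ρ ^ (m + j) ≤ ‖v (m + j + 1)‖ := by
          have h4 : l * v (m + j) = v (m + j + 1) - (v (m + j + 1) - l * v (m + j)) := by ring
          have h5 : ‖l * v (m + j)‖ ≤ ‖v (m + j + 1)‖ + C * ρ ^ (m + j) := by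
            rw [h4]
            exact (norm_sub_le _ _).trans (add_le_add le_rfl (h _))
          rw [norm_mul] at h5
          linarith
        have h6 : 0 ≤ ‖v (m + j)‖ - A * ρ ^ (m + j) := by
          have : 0 ≤ b ^ j * e := by positivity
          linarith
        rw [← add_assoc, pow_succ, pow_succ]
        have h7 : b * (‖v (m + j)‖ - A * ρ ^ (m + j)) ≤ ‖l‖ * (‖v (m + j)‖ - A * ρ ^ (m + j)) :=
          mul_le_mul_of_nonneg_right hl h6
        have h8 : b ^ j * b * e ≤ b * (‖v (m + j)‖ - A * ρ ^ (m + j)) := by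
          calc b ^ j * b * e = b * (b ^ j * e) := by ring
            _ ≤ _ := mul_le_mul_of_nonneg_left ih hb.le
        have h9 : ‖l‖ * (A * ρ ^ (m + j)) = C * ρ ^ (m + j) + A * (ρ ^ (m + j) * ρ) := by
          rw [← hA1]; ring
        linarith
    have h10 := hv.norm
    rw [norm_zero] at h10
    have h11 : (0 : ℝ) < e / b ^ m := by positivity
    obtain ⟨M, hM⟩ := eventually_atTop.1 (h10.eventually_lt_const h11)
    have h12 := hM (m + M) (by omega)
    have h13 := hgrow M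
    rw [norm_div, norm_pow, Complex.norm_real, Real.norm_of_nonneg hb.le,
      div_lt_div_iff₀ (by positivity) (by positivity), pow_add] at h12
    have h14 : 0 ≤ A * ρ ^ (m + M) := by
      have : 0 ≤ A := div_nonneg hC (by linarith)
      positivity
    have h15 : 0 < b ^ m := by positivity
    nlinarith

/-- the shift -/
def sh : Module.End ℂ (ℕ → ℂ) where
  toFun v := fun m => v (m + 1)
  map_add' _ _ := rfl
  map_smul' _ _ := rfl

theorem sh_pow (i : ℕ) (v : ℕ → ℂ) (m : ℕ) : (sh ^ i) v m = v (m + i) := by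
  induction i generalizing m with
  | zero => simp
  | succ i ih =>
    rw [pow_succ', Module.End.mul_apply]
    show (sh ^ i) v (m + 1) = _
    rw [ih]
    congr 1
    omega

theorem aeval_sh (χ : Polynomial ℂ) (v : ℕ → ℂ) (m : ℕ) :
    Polynomial.aeval sh χ v m = ∑ i ∈ range (χ.natDegree + 1), χ.coeff i * v (m + i) := by
  rw [Polynomial.aeval_eq_sum_range]
  simp [LinearMap.sum_apply, Finset.sum_apply, sh_pow]

theorem aeval_sh' (χ : Polynomial ℂ) {N : ℕ} (hN : χ.natDegree < N) (v : ℕ → ℂ) (m : ℕ) :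
    Polynomial.aeval sh χ v m = ∑ i ∈ range N, χ.coeff i * v (m + i) := by
  rw [Polynomial.aeval_eq_sum_range' hN]
  simp [LinearMap.sum_apply, Finset.sum_apply, sh_pow]

theorem const_coeff {b : ℝ} (hb : 0 < b) (N : ℕ) : ∀ χ : Polynomial ℂ, χ ≠ 0 →
    χ.natDegree = N → ∀ u : ℕ → ℂ, Tendsto (fun m : ℕ => u m / (b : ℂ) ^ m) atTop (𝓝 0) →
    ∀ C ρ : ℝ, 0 < ρ → ρ < b → 0 ≤ C → (∀ m, ‖Polynomial.aeval sh χ u m‖ ≤ C * ρ ^ m) →
    ∃ C' ρ' : ℝ, 0 < ρ' ∧ ρ' < b ∧ 0 ≤ C' ∧ ∀ m, ‖u m‖ ≤ C' * ρ' ^ m := by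
  induction N with
  | zero =>
    intro χ hχ hdeg u _ C ρ hρ hρb hC h
    obtain ⟨a, rfl⟩ := Polynomial.natDegree_eq_zero.1 hdeg
    have ha : a ≠ 0 := by
      rintro rfl
      exact hχ (by simp)
    refine ⟨C / ‖a‖, ρ, hρ, hρb, by positivity, fun m => ?_⟩
    have h1 := h m
    rw [aeval_sh] at h1
    simp only [Polynomial.natDegree_C, zero_add, Finset.sum_range_one, Polynomial.coeff_C_zero,
      add_zero, norm_mul] at h1
    rw [div_mul_eq_mul_div, le_div_iff₀ (norm_pos_iff.2 ha)]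
    linarith
  | succ N ih =>
    intro χ hχ hdeg u hu C ρ hρ hρb hC h
    have hdeg' : χ.degree ≠ 0 := by
      rw [Polynomial.degree_eq_natDegree hχ, hdeg]
      exact_mod_cast Nat.succ_ne_zero N
    obtain ⟨l, hl⟩ := IsAlgClosed.exists_root χ hdeg'
    obtain ⟨q, hq⟩ := Polynomial.dvd_iff_isRoot.2 hl
    have hq0 : q ≠ 0 := by
      rintro rfl
      exact hχ (by rw [hq, mul_zero])
    have hqdeg : q.natDegree = N := by
      have := congrArg Polynomial.natDegree hq
      rw [Polynomial.natDegree_mul (Polynomial.X_sub_C_ne_zero l) hq0,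
        Polynomial.natDegree_X_sub_C, hdeg] at this
      omega
    set v : ℕ → ℂ := Polynomial.aeval sh q u with hv
    have hvv : ∀ m, v (m + 1) - l * v m = Polynomial.aeval sh χ u m := by
      intro m
      rw [hq, map_mul, Module.End.mul_apply, ← hv]
      simp [sh]
    have hvt : Tendsto (fun m : ℕ => v m / (b : ℂ) ^ m) atTop (𝓝 0) := by
      have h1 : ∀ m, v m / (b : ℂ) ^ m = ∑ i ∈ range (q.natDegree + 1),
          q.coeff i * (b : ℂ) ^ i * (u (m + i) / (b : ℂ) ^ (m + i)) := by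
        intro m
        rw [hv, aeval_sh, Finset.sum_div]
        refine Finset.sum_congr rfl fun i _ => ?_
        have hbc : (b : ℂ) ≠ 0 := by exact_mod_cast hb.ne'
        rw [pow_add]
        field_simp
      simp only [h1]
      have h2 : (0 : ℂ) = ∑ i ∈ range (q.natDegree + 1), q.coeff i * (b : ℂ) ^ i * 0 := by simp
      rw [h2]
      apply tendsto_finsetSum
      intro i _
      apply Tendsto.const_mul
      exact hu.comp (tendsto_add_atTop_nat i)
    obtain ⟨C1, ρ1, h1, h2, h3, h4⟩ := one_step hρ hρb hC l v hvt (fun m => by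
      rw [hvv]; exact h m)
    exact ih q hq0 hqdeg u hu C1 ρ1 h1 h2 h3 h4

end Pool.Agent.U343.Reg
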