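import Mathlib
import Pool.Agent.U343.Reg2
import Pool.Agent.U343.Reg4

/-!
# The function `r k` and linear equations along geometric progressions
-/

set_option autoImplicit false

open Filter Finset Topology

namespace Pool.Agent.U343.Reg

open Pool.Agent.H617R3.AP

/-- Along the geometric progression `n₀ b ^ m` the values of `f` satisfy a linear recurrence whose
coefficients are polynomials in `n₀ b ^ m`, not all of them zero. -/
def IsHolonomic (b n₀ : ℕ) (f : ℕ → ℂ) : Prop :=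
  ∃ (d : ℕ) (c : ℕ → Polynomial ℂ), (∃ i ≤ d, c i ≠ 0) ∧
    ∀ᶠ m : ℕ in atTop,
      ∑ i ∈ range (d + 1), (c i).eval ((n₀ * b ^ m : ℕ) : ℂ) * f (n₀ * b ^ (m + i)) = 0

/-- the leading part of a polynomial -/
theorem lead_approx (p : Polynomial ℂ) {D : ℕ} (hD : p.natDegree ≤ D) :
    ∃ B : ℝ, 0 ≤ B ∧ ∀ x : ℕ, 1 ≤ x →
      ‖p.coeff D - p.eval (x : ℂ) / (x : ℂ) ^ D‖ ≤ B / x := by
  refine ⟨∑ j ∈ range D, ‖p.coeff j‖, by positivity, fun x hx => ?_⟩
  have hxR : (0 : ℝ) < x := by exact_mod_cast hx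
  have hxC : (x : ℂ) ≠ 0 := by exact_mod_cast hxR.ne'
  have h1 : p.coeff D - p.eval (x : ℂ) / (x : ℂ) ^ D =
      -∑ j ∈ range D, p.coeff j * ((x : ℂ) ^ j / (x : ℂ) ^ D) := by
    rw [Polynomial.eval_eq_sum_range' (Nat.lt_succ_of_le hD), Finset.sum_range_succ, add_div,
      mul_div_cancel_right₀ _ (pow_ne_zero _ hxC), Finset.sum_div]
    simp only [mul_div_assoc]
    ring
  rw [h1, norm_neg, Finset.sum_div]
  refine (norm_sum_le _ _).trans (Finset.sum_le_sum fun j hj => ?_)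
  rw [mem_range] at hj
  rw [norm_mul, norm_div, norm_pow, norm_pow, Complex.norm_natCast,
    div_eq_mul_inv (‖p.coeff j‖) (x : ℝ)]
  apply mul_le_mul_of_nonneg_left _ (norm_nonneg _)
  rw [← one_div, div_le_div_iff₀ (by positivity) hxR, one_mul, ← pow_succ]
  exact pow_le_pow_right₀ (by exact_mod_cast hx) hj

theorem holonomic_small {b n₀ : ℕ} (hb : 2 ≤ b) (hn₀ : 1 ≤ n₀) {f : ℕ → ℂ}
    (hf : IsHolonomic b n₀ f)
    (hf0 : Tendsto (fun m : ℕ => f (n₀ * b ^ m) / ((b : ℝ) : ℂ) ^ m) atTop (𝓝 0)) :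
    ∃ C ρ : ℝ, 0 < ρ ∧ ρ < b ∧ 0 ≤ C ∧ ∀ m, ‖f (n₀ * b ^ m)‖ ≤ C * ρ ^ m := by
  classical
  obtain ⟨d, c, ⟨i₀, hi₀, hci₀⟩, hrec⟩ := hf
  have hbR : (0 : ℝ) < b := by
    have : 0 < b := by omega
    exact_mod_cast this
  -- the largest degree
  set D := (range (d + 1)).sup (fun i => (c i).natDegree) with hD
  have hDle : ∀ i ∈ range (d + 1), (c i).natDegree ≤ D := fun i hi =>
    Finset.le_sup (f := fun i => (c i).natDegree) hi
  obtain ⟨i₁, hi₁, hi₁'⟩ : ∃ i ∈ range (d + 1), (c i).coeff D ≠ 0 := by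
    rcases Nat.eq_zero_or_pos D with h0 | h0
    · refine ⟨i₀, by rw [mem_range]; omega, ?_⟩
      have h1 := hDle i₀ (by rw [mem_range]; omega)
      rw [h0] at h1 ⊢
      have h2 : (c i₀).natDegree = 0 := by omega
      rw [← h2]
      exact Polynomial.leadingCoeff_ne_zero.2 hci₀
    · obtain ⟨i, hi, hi2⟩ := Finset.exists_mem_eq_sup (range (d + 1)) ⟨0, by simp⟩
        (fun i => (c i).natDegree)
      refine ⟨i, hi, ?_⟩
      rw [hD, hi2]
      apply Polynomial.leadingCoeff_ne_zero.2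
      intro h
      rw [hD, hi2, h] at h0
      simp at h0
  set χ : Polynomial ℂ := ∑ i ∈ range (d + 1), Polynomial.monomial i ((c i).coeff D) with hχ
  have hχc : ∀ i ∈ range (d + 1), χ.coeff i = (c i).coeff D := by
    intro i hi
    rw [hχ, Polynomial.finsetSum_coeff]
    simp only [Polynomial.coeff_monomial]
    rw [Finset.sum_ite_eq' (range (d + 1)) i, if_pos hi]
  have hχ0 : χ ≠ 0 := by
    intro h
    apply hi₁'
    rw [← hχc i₁ hi₁, h, Polynomial.coeff_zero]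
  have hχdeg : χ.natDegree < d + 1 := by
    rw [hχ]
    have h1 : (∑ i ∈ range (d + 1), Polynomial.monomial i ((c i).coeff D)).natDegree ≤ d := by
      apply Polynomial.natDegree_sum_le_of_forall_le
      intro i hi
      rw [mem_range] at hi
      exact (Polynomial.natDegree_monomial_le _).trans (by omega)
    omega
  set u : ℕ → ℂ := fun m => f (n₀ * b ^ m) with hu
  -- boundedness of `u m / b ^ m`
  obtain ⟨U, hU0, hU⟩ : ∃ U : ℝ, 0 ≤ U ∧ ∀ m, ‖u m‖ ≤ U * (b : ℝ) ^ m := by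
    obtain ⟨U, hU⟩ := (Metric.isBounded_range_of_tendsto _ hf0).exists_norm_le
    refine ⟨max U 0, le_max_right _ _, fun m => ?_⟩
    have h1 := hU _ ⟨m, rfl⟩
    rw [norm_div, norm_pow, Complex.norm_real, Real.norm_of_nonneg hbR.le,
      div_le_iff₀ (by positivity)] at h1
    exact h1.trans (mul_le_mul_of_nonneg_right (le_max_left _ _) (by positivity))
  choose! B hB0 hB using fun i (hi : i ∈ range (d + 1)) => lead_approx (c i) (hDle i hi)
  obtain ⟨m₁, hm₁⟩ := eventually_atTop.1 hrec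
  -- the sequence `χ(S) u` is bounded
  set A : ℝ := ∑ i ∈ range (d + 1), B i * (U * (b : ℝ) ^ i) with hA
  have hA0 : 0 ≤ A := Finset.sum_nonneg fun i hi => by
    have := hB0 i hi
    positivity
  have hlarge : ∀ m, m₁ ≤ m → ‖Polynomial.aeval sh χ u m‖ ≤ A := by
    intro m hm
    rw [aeval_sh' χ hχdeg]
    have hx1 : 1 ≤ n₀ * b ^ m := Nat.mul_pos hn₀ (by positivity)
    set x := n₀ * b ^ m with hx
    have hxR : (0 : ℝ) < x := by exact_mod_cast hx1
    have hxC : (x : ℂ) ≠ 0 := by exact_mod_cast hxR.ne'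
    have h1 : ∑ i ∈ range (d + 1), χ.coeff i * u (m + i) = ∑ i ∈ range (d + 1),
        ((c i).coeff D - (c i).eval (x : ℂ) / (x : ℂ) ^ D) * u (m + i) := by
      have h2 := hm₁ m hm
      have h3 : ∑ i ∈ range (d + 1), (c i).eval (x : ℂ) / (x : ℂ) ^ D * u (m + i) = 0 := by
        have : ∀ i ∈ range (d + 1), (c i).eval (x : ℂ) / (x : ℂ) ^ D * u (m + i) =
            ((c i).eval (x : ℂ) * f (n₀ * b ^ (m + i))) / (x : ℂ) ^ D := by
          intro i _
          simp only [hu]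
          ring
        rw [Finset.sum_congr rfl this, ← Finset.sum_div, h2, zero_div]
      simp only [sub_mul]
      rw [Finset.sum_sub_distrib, h3, sub_zero]
      exact Finset.sum_congr rfl fun i hi => by rw [hχc i hi]
    rw [h1]
    refine (norm_sum_le _ _).trans (Finset.sum_le_sum fun i hi => ?_)
    rw [norm_mul]
    have h4 := hB i hi x hx1
    have h5 := hU (m + i)
    have h6 : (b : ℝ) ^ m ≤ x := by
      have : 1 * b ^ m ≤ x := Nat.mul_le_mul hn₀ le_rfl
      rw [one_mul] at this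
      exact_mod_cast this
    calc ‖(c i).coeff D - (c i).eval (x : ℂ) / (x : ℂ) ^ D‖ * ‖u (m + i)‖
        ≤ B i / x * (U * (b : ℝ) ^ (m + i)) :=
          mul_le_mul h4 h5 (norm_nonneg _) (div_nonneg (hB0 i hi) hxR.le)
      _ = B i * (U * (b : ℝ) ^ i) * ((b : ℝ) ^ m / x) := by rw [pow_add]; ring
      _ ≤ B i * (U * (b : ℝ) ^ i) * 1 := by
          apply mul_le_mul_of_nonneg_left _ (by have := hB0 i hi; positivity)
          rw [div_le_one hxR]
          exact h6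
      _ = _ := mul_one _
  set A' : ℝ := A + ∑ m ∈ range m₁, ‖Polynomial.aeval sh χ u m‖ with hA'
  have hall : ∀ m, ‖Polynomial.aeval sh χ u m‖ ≤ A' * (1 : ℝ) ^ m := by
    intro m
    rw [one_pow, mul_one, hA']
    rcases Nat.lt_or_ge m m₁ with h | h
    · have := Finset.single_le_sum (f := fun m => ‖Polynomial.aeval sh χ u m‖)
        (fun _ _ => norm_nonneg _) (mem_range.2 h)
      linarith
    · have := hlarge m h
      have h2 : 0 ≤ ∑ m ∈ range m₁, ‖Polynomial.aeval sh χ u m‖ := by positivity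
      linarith
  have hA'0 : 0 ≤ A' := by positivity
  have hb1 : (1 : ℝ) < b := by
    have : 1 < b := by omega
    exact_mod_cast this
  obtain ⟨C', ρ', h1, h2, h3, h4⟩ := const_coeff hbR χ.natDegree χ hχ0 rfl u hf0 A' 1 one_pos hb1
    hA'0 hall
  exact ⟨C', ρ', h1, h2, h3, h4⟩

theorem holonomic_power {k : ℕ} (hk : 3 ≤ k) {b n₀ : ℕ} (hb : 2 ≤ b) (hn₀ : 1 ≤ n₀) {f : ℕ → ℂ}
    (hf : IsHolonomic b n₀ f)
    (hf0 : Tendsto (fun m : ℕ => f (n₀ * b ^ m) / ((n₀ * b ^ m : ℕ) : ℂ)) atTop (𝓝 0)) :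
    ∃ δ : ℝ, 0 < δ ∧ ∀ᶠ m : ℕ in atTop,
      ‖f (n₀ * b ^ m)‖ ≤ (r k (n₀ * b ^ m) : ℝ) ^ (1 - δ) := by
  have hbR : (1 : ℝ) < b := by
    have : 1 < b := by omega
    exact_mod_cast this
  have hbC : ((b : ℝ) : ℂ) ≠ 0 := by
    have : (b : ℝ) ≠ 0 := by positivity
    exact_mod_cast this
  have hn₀C : (n₀ : ℂ) ≠ 0 := by
    have : n₀ ≠ 0 := by omega
    exact_mod_cast this
  have hf1 : Tendsto (fun m : ℕ => f (n₀ * b ^ m) / ((b : ℝ) : ℂ) ^ m) atTop (𝓝 0) := by
    have h1 := hf0.const_mul (n₀ : ℂ)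
    rw [mul_zero] at h1
    refine h1.congr fun m => ?_
    push_cast
    have : ((b : ℂ)) ≠ 0 := by simpa using hbC
    field_simp
  obtain ⟨C, ρ, h1, h2, h3, h4⟩ := holonomic_small hb hn₀ hf hf1
  set ρ' := max ρ 1 with hρ'
  have hρ1 : 1 ≤ ρ' := le_max_right _ _
  have hρb : ρ' < b := max_lt h2 hbR
  have hlb : 0 < Real.log b := Real.log_pos hbR
  set δ : ℝ := 1 - Real.log ρ' / Real.log b with hδ
  have hδ0 : 0 < δ := by
    have : Real.log ρ' / Real.log b < 1 := by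
      rw [div_lt_one hlb]
      exact Real.log_lt_log (by linarith) hρb
    linarith
  have hδ1 : δ ≤ 1 := by
    have : 0 ≤ Real.log ρ' / Real.log b := div_nonneg (Real.log_nonneg hρ1) hlb.le
    linarith
  have hbδ : (b : ℝ) ^ (1 - δ) = ρ' := by
    rw [Real.rpow_def_of_pos (by linarith), show 1 - δ = Real.log ρ' / Real.log b by rw [hδ]; ring,
      mul_div_cancel₀ _ hlb.ne', Real.exp_log (by linarith)]
  have h5 := power_le hk C hδ0 hδ1
  have hten : Tendsto (fun m : ℕ => n₀ * b ^ m) atTop atTop := by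
    apply tendsto_atTop_mono (fun m => ?_) tendsto_id
    calc m ≤ b ^ m := (Nat.lt_pow_self (by omega)).le
      _ ≤ n₀ * b ^ m := Nat.le_mul_of_pos_left _ hn₀
  refine ⟨δ / 2, by positivity, ?_⟩
  filter_upwards [hten.eventually h5] with m hm
  refine le_trans ?_ hm
  refine (h4 m).trans (mul_le_mul_of_nonneg_left ?_ h3)
  calc ρ ^ m ≤ ρ' ^ m := pow_le_pow_left₀ h1.le (le_max_left _ _) m
    _ = ((b : ℝ) ^ m) ^ (1 - δ) := by
        rw [← hbδ, ← Real.rpow_natCast, ← Real.rpow_natCast, ← Real.rpow_mul (by linarith),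
          ← Real.rpow_mul (by linarith), mul_comm]
    _ ≤ ((n₀ * b ^ m : ℕ) : ℝ) ^ (1 - δ) := by
        apply Real.rpow_le_rpow (by positivity) _ (by linarith)
        have : 1 * b ^ m ≤ n₀ * b ^ m := Nat.mul_le_mul hn₀ le_rfl
        rw [one_mul] at this
        exact_mod_cast this

/-- regular sequences satisfy such equations along every geometric progression -/
theorem IsRegular.holonomic {b : ℕ} (hb : 2 ≤ b) {f : ℕ → ℂ} (hf : IsRegular b f) (n₀ : ℕ) :
    IsHolonomic b n₀ f := by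
  classical
  have hfin : FiniteDimensional ℂ (Submodule.span ℂ (kernel b f)) := Module.Finite.iff_fg.2 hf
  set V := Submodule.span ℂ (kernel b f) with hV
  have hb0 : 0 < b := by omega
  let w : ℕ → V := fun i => ⟨T b i 0 f, T_span (by positivity) (Submodule.subset_span (self_mem b f))⟩
  have hnli : ¬ LinearIndependent ℂ (fun i : Fin (Module.finrank ℂ V + 1) => w i) := by
    intro h
    have := h.fintype_card_le_finrank
    simp at this
  rw [Fintype.not_linearIndependent_iff] at hnli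
  obtain ⟨g, hg, j, hj⟩ := hnli
  refine ⟨Module.finrank ℂ V, fun i => if h : i < Module.finrank ℂ V + 1 then
    Polynomial.C (g ⟨i, h⟩) else 0, ⟨j, by omega, ?_⟩, Eventually.of_forall fun m => ?_⟩
  · simp only [j.2, dif_pos]
    simpa using hj
  · have h1 := congrArg (fun v : V => (v : ℕ → ℂ) (n₀ * b ^ m)) hg
    simp only [Submodule.coe_sum, Submodule.coe_smul, Finset.sum_apply, Pi.smul_apply,
      smul_eq_mul, w, T_apply, Submodule.coe_zero, Pi.zero_apply] at h1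
    rw [Finset.sum_range]
    rw [← h1]
    refine Finset.sum_congr rfl fun i _ => ?_
    simp only [i.2, dif_pos, Polynomial.eval_C, add_zero]
    congr 2
    rw [pow_add]
    ring

/-- no such sequence has the order of magnitude of `r k` -/
theorem no_order {k : ℕ} (hk : 3 ≤ k) {b n₀ : ℕ} (hb : 2 ≤ b) (hn₀ : 1 ≤ n₀) {f : ℕ → ℂ}
    (hf : IsHolonomic b n₀ f) {c C : ℝ} (hc : 0 < c) :
    ¬ ∀ᶠ m : ℕ in atTop, c * r k (n₀ * b ^ m) ≤ ‖f (n₀ * b ^ m)‖ ∧
      ‖f (n₀ * b ^ m)‖ ≤ C * r k (n₀ * b ^ m) := by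
  intro h
  have hten : Tendsto (fun m : ℕ => n₀ * b ^ m) atTop atTop := by
    apply tendsto_atTop_mono (fun m => ?_) tendsto_id
    calc m ≤ b ^ m := (Nat.lt_pow_self (by omega)).le
      _ ≤ n₀ * b ^ m := Nat.le_mul_of_pos_left _ hn₀
  have hf0 : Tendsto (fun m : ℕ => f (n₀ * b ^ m) / ((n₀ * b ^ m : ℕ) : ℂ)) atTop (𝓝 0) := by
    have h1 := ((szem k (by omega)).comp hten).const_mul C
    rw [mul_zero] at h1
    rw [tendsto_zero_iff_norm_tendsto_zero]
    refine squeeze_zero' (Eventually.of_forall fun _ => norm_nonneg _) ?_ h1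
    filter_upwards [h] with m hm
    rw [norm_div, Complex.norm_natCast, Function.comp, ← mul_div_assoc]
    exact div_le_div_of_nonneg_right hm.2 (by positivity)
  obtain ⟨δ, hδ, h2⟩ := holonomic_power hk hb hn₀ hf hf0
  -- `r ^ δ` tends to infinity
  have h3 : Tendsto (fun m : ℕ => (r k (n₀ * b ^ m) : ℝ) ^ δ) atTop atTop :=
    (tendsto_rpow_atTop hδ).comp ((Pool.Agent.TH106.AP3.tendsto_r hk).comp hten)
  obtain ⟨m, h4, h5, h6, h7⟩ := (h.and (h2.and ((h3.eventually_gt_atTop (1 / c)).and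
    ((Pool.Agent.TH106.AP3.tendsto_r hk).comp hten |>.eventually_gt_atTop 0)))).exists
  simp only [Function.comp] at h7
  set R : ℝ := (r k (n₀ * b ^ m) : ℝ) with hR
  have h8 : c * R ≤ R ^ (1 - δ) := h4.1.trans h5
  rw [Real.rpow_sub h7, Real.rpow_one, le_div_iff₀ (by positivity)] at h8
  rw [div_lt_iff₀ hc] at h6
  have : R * (R ^ δ * c) ≤ R * 1 := by linarith
  have h9 := le_of_mul_le_mul_left this h7
  linarith

/-- no such sequence is asymptotic to `r k` -/
theorem no_formula {k : ℕ} (hk : 3 ≤ k) {b n₀ : ℕ} (hb : 2 ≤ b) (hn₀ : 1 ≤ n₀) {f : ℕ → ℂ}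
    (hf : IsHolonomic b n₀ f) : ¬ Tendsto (fun n : ℕ => (r k n : ℂ) / f n) atTop (𝓝 1) := by
  intro h
  have hten : Tendsto (fun m : ℕ => n₀ * b ^ m) atTop atTop := by
    apply tendsto_atTop_mono (fun m => ?_) tendsto_id
    calc m ≤ b ^ m := (Nat.lt_pow_self (by omega)).le
      _ ≤ n₀ * b ^ m := Nat.le_mul_of_pos_left _ hn₀
  have h1 := h.norm
  rw [norm_one] at h1
  have h2 := (h1.eventually_lt_const (show (1 : ℝ) < 2 by norm_num)).and
    (h1.eventually_const_lt (show (1 / 2 : ℝ) < 1 by norm_num))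
  apply no_order hk hb hn₀ hf (c := 1 / 2) (C := 2) (by norm_num)
  filter_upwards [hten.eventually h2] with m hm
  obtain ⟨h3, h4⟩ := hm
  rw [norm_div, Complex.norm_natCast] at h3 h4
  have h5 : 0 < ‖f (n₀ * b ^ m)‖ := by
    rw [norm_pos_iff]
    intro h
    rw [h] at h4
    norm_num at h4
  rw [div_lt_iff₀ h5] at h3
  rw [lt_div_iff₀ h5] at h4
  constructor <;> linarith

/-- **The two alternatives for a regular sequence.** -/
theorem regular_alt {k : ℕ} (hk : 3 ≤ k) {b : ℕ} (hb : 2 ≤ b) {f : ℕ → ℂ} (hf : IsRegular b f) :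
    (∃ L : ℕ, ∀ K : ℝ, ∀ᶠ x : ℕ in atTop, ∃ n : ℕ, x ≤ n ∧ n ≤ L * x ∧ K * r k n ≤ ‖f n‖) ∨
    ∃ δ : ℝ, 0 < δ ∧ ∀ᶠ n : ℕ in atTop, ‖f n‖ ≤ (r k n : ℝ) ^ (1 - δ) := by
  rcases gap hb hf with ⟨L, ε, hε, h⟩ | ⟨δ, C, hδ0, hδ1, hC, h⟩
  · left
    refine ⟨L, fun K => ?_⟩
    have hpos : (0 : ℝ) < ε / (|K| + 1) := by positivity
    obtain ⟨M, hM⟩ := eventually_atTop.1 ((szem k (by omega)).eventually_lt_const hpos)
    filter_upwards [eventually_ge_atTop (max M 1)] with x hx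
    obtain ⟨n, hn1, hn2, hn3⟩ := h x ((le_max_right _ _).trans hx)
    refine ⟨n, hn1, hn2, le_trans ?_ hn3⟩
    have h1 := hM n (((le_max_left _ _).trans hx).trans hn1)
    have hn0 : (0 : ℝ) < n := by
      have : 1 ≤ n := ((le_max_right _ _).trans hx).trans hn1
      exact_mod_cast this
    rw [div_lt_iff₀ hn0, div_mul_eq_mul_div, lt_div_iff₀ (by positivity)] at h1
    have h2 : K * (r k n : ℝ) ≤ (r k n : ℝ) * (|K| + 1) := by
      have h3 : (0 : ℝ) ≤ r k n := Nat.cast_nonneg _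
      have h4 := le_abs_self K
      nlinarith
    linarith
  · right
    refine ⟨δ / 2, by positivity, ?_⟩
    filter_upwards [power_le hk C hδ0 hδ1, eventually_ge_atTop 1] with n hn hn1
    exact (h n hn1).trans hn

end Pool.Agent.U343.Reg
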