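import Pool.Agent.Q229.Spread.Weighted

/-!
# The sharp Laplacian spread inequality for `[0,1]`-weighted graphs

`λ₂(G) + λ₂(Gᶜ) - (2/n) λ₂(G) λ₂(Gᶜ) ≥ 1` for every graph `G` on `n ≥ 2` vertices with weights in
`[0,1]`.
-/

set_option autoImplicit false

open Finset

namespace Pool.Agent.U343.Spread

variable {n : ℕ}

/-- The Laplacian quadratic form `xᵀ L x = ∑_{i<j} w_ij (x_i - x_j)²` (half of the sum over all
ordered pairs). -/
noncomputable def lapForm (w : Fin n → Fin n → ℝ) (x : Fin n → ℝ) : ℝ :=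
  (∑ i, ∑ j, w i j * (x i - x j) ^ 2) / 2

/-- The algebraic connectivity `λ₂`: the minimum of `xᵀ L x` over the unit vectors `x` orthogonal
to the all-ones vector. -/
noncomputable def lam2 (w : Fin n → Fin n → ℝ) : ℝ :=
  sInf (lapForm w '' {x : Fin n → ℝ | ∑ i, x i = 0 ∧ ∑ i, x i ^ 2 = 1})

/-- the bilinear form -/
noncomputable def B (w : Fin n → Fin n → ℝ) (x y : Fin n → ℝ) : ℝ :=
  (∑ i, ∑ j, w i j * ((x i - x j) * (y i - y j))) / 2

lemma lapForm_eq (w : Fin n → Fin n → ℝ) (x : Fin n → ℝ) : lapForm w x = B w x x := by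
  unfold lapForm B
  congr 1
  exact sum_congr rfl fun i _ => sum_congr rfl fun j _ => by ring

lemma B_symm (w : Fin n → Fin n → ℝ) (x y : Fin n → ℝ) : B w x y = B w y x := by
  unfold B
  congr 1
  exact sum_congr rfl fun i _ => sum_congr rfl fun j _ => by ring

lemma B_add_right (w : Fin n → Fin n → ℝ) (x y z : Fin n → ℝ) (s t : ℝ) :
    B w x (fun i => s * y i + t * z i) = s * B w x y + t * B w x z := by
  unfold B
  rw [mul_div_assoc', mul_div_assoc', ← add_div, mul_sum, mul_sum, ← sum_add_distrib]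
  congr 1
  refine sum_congr rfl fun i _ => ?_
  rw [mul_sum, mul_sum, ← sum_add_distrib]
  exact sum_congr rfl fun j _ => by ring

lemma B_add_left (w : Fin n → Fin n → ℝ) (x y z : Fin n → ℝ) (s t : ℝ) :
    B w (fun i => s * y i + t * z i) x = s * B w y x + t * B w z x := by
  rw [B_symm, B_add_right, B_symm w x y, B_symm w x z]

/-- `∑_{i<j} (x_i - x_j)(y_i - y_j) = n x·y - (∑ x)(∑ y)` -/
lemma B_one (x y : Fin n → ℝ) :
    B (fun _ _ => 1) x y = n * (∑ i, x i * y i) - (∑ i, x i) * (∑ i, y i) := by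
  unfold B
  have : ∑ i, ∑ j, (1 : ℝ) * ((x i - x j) * (y i - y j)) =
      2 * (n * (∑ i, x i * y i) - (∑ i, x i) * (∑ i, y i)) := by
    have e : ∀ i j, (1 : ℝ) * ((x i - x j) * (y i - y j)) =
        (x i * y i + x j * y j) - (x i * y j + y i * x j) := fun i j => by ring
    simp only [e, sum_sub_distrib, sum_add_distrib, sum_const, card_univ, Fintype.card_fin,
      nsmul_eq_mul, ← mul_sum, ← sum_mul]
    ring
  rw [this]; ring

lemma B_compl (w : Fin n → Fin n → ℝ) (x y : Fin n → ℝ) (hx : ∑ i, x i = 0) :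
    B (fun i j => 1 - w i j) x y = n * (∑ i, x i * y i) - B w x y := by
  have h : B (fun i j => 1 - w i j) x y = B (fun _ _ => 1) x y - B w x y := by
    unfold B
    rw [← sub_div, ← sum_sub_distrib]
    congr 1
    refine sum_congr rfl fun i _ => ?_
    rw [← sum_sub_distrib]
    exact sum_congr rfl fun j _ => by ring
  rw [h, B_one, hx]; ring

/-- the unit sphere orthogonal to the all-ones vector -/
def S (n : ℕ) : Set (Fin n → ℝ) := {x | ∑ i, x i = 0 ∧ ∑ i, x i ^ 2 = 1}

lemma S_compact : IsCompact (S n) := by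
  refine Metric.isCompact_of_isClosed_isBounded ?_ ?_
  · refine IsClosed.inter ?_ ?_
    · exact isClosed_eq (by fun_prop) continuous_const
    · exact isClosed_eq (by fun_prop) continuous_const
  · refine (Metric.isBounded_closedBall (x := (0 : Fin n → ℝ)) (r := 1)).subset ?_
    intro x hx
    rw [mem_closedBall_zero_iff, pi_norm_le_iff_of_nonneg zero_le_one]
    intro i
    have h1 : x i ^ 2 ≤ ∑ i, x i ^ 2 := single_le_sum (fun i _ => sq_nonneg (x i)) (mem_univ i)
    rw [hx.2] at h1
    rw [Real.norm_eq_abs]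
    exact abs_le_one_iff_mul_self_le_one.2 (by nlinarith)

lemma S_nonempty (hn : 2 ≤ n) : (S n).Nonempty := by
  let i0 : Fin n := ⟨0, by omega⟩
  let i1 : Fin n := ⟨1, by omega⟩
  have h01 : i0 ≠ i1 := by intro h; have := congrArg Fin.val h; simp [i0, i1] at this
  refine ⟨fun i => (if i = i0 then √(1 / 2) else 0) + (if i = i1 then -√(1 / 2) else 0), ?_, ?_⟩
  · rw [sum_add_distrib, sum_ite_eq', sum_ite_eq']; simp
  · have : ∀ i : Fin n, ((if i = i0 then √(1 / 2 : ℝ) else 0) +
        (if i = i1 then -√(1 / 2 : ℝ) else 0)) ^ 2 =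
        (if i = i0 then (1 / 2 : ℝ) else 0) + (if i = i1 then (1 / 2 : ℝ) else 0) := by
      intro i
      by_cases h0 : i = i0
      · rw [if_pos h0, if_neg (by rw [h0]; exact h01), if_pos h0, if_neg (by rw [h0]; exact h01),
          add_zero, Real.sq_sqrt (by norm_num)]
        ring
      · by_cases h1 : i = i1
        · rw [if_neg h0, if_pos h1, if_neg h0, if_pos h1, zero_add, neg_sq,
            Real.sq_sqrt (by norm_num)]
          ring
        · rw [if_neg h0, if_neg h1, if_neg h0, if_neg h1]; ring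
    rw [sum_congr rfl fun i _ => this i, sum_add_distrib, sum_ite_eq', sum_ite_eq']
    simp; norm_num

lemma lapForm_continuous (w : Fin n → Fin n → ℝ) : Continuous (lapForm w) := by
  unfold lapForm; fun_prop

/-- `λ₂` is attained. -/
lemma exists_min (hn : 2 ≤ n) (w : Fin n → Fin n → ℝ) :
    ∃ a ∈ S n, lapForm w a = lam2 w ∧ ∀ x ∈ S n, lam2 w ≤ lapForm w x := by
  obtain ⟨a, ha, hmin⟩ := S_compact.exists_isMinOn (S_nonempty hn)
    (lapForm_continuous w).continuousOn
  have hl : IsLeast (lapForm w '' S n) (lapForm w a) :=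
    ⟨⟨a, ha, rfl⟩, by rintro _ ⟨x, hx, rfl⟩; exact hmin hx⟩
  have : lam2 w = lapForm w a := hl.csInf_eq
  refine ⟨a, ha, this.symm, fun x hx => ?_⟩
  rw [this]; exact hmin hx

lemma lam2_le (w : Fin n → Fin n → ℝ) (l : ℝ)
    (h : ∀ x ∈ S n, l ≤ lapForm w x) (y : Fin n → ℝ) (hy : ∑ i, y i = 0) :
    l * (∑ i, y i ^ 2) ≤ lapForm w y := by
  set q := ∑ i, y i ^ 2 with hq
  have hq0 : 0 ≤ q := sum_nonneg fun i _ => sq_nonneg _
  rcases hq0.eq_or_lt with h0 | h0
  · have hz : ∀ i, y i = 0 := by
      intro i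
      have := (sum_eq_zero_iff_of_nonneg (fun i _ => sq_nonneg (y i))).1 h0.symm i (mem_univ i)
      exact pow_eq_zero_iff (two_ne_zero) |>.1 this
    have : lapForm w y = 0 := by unfold lapForm; simp [hz]
    rw [this, ← h0, mul_zero]
  · set r := (√q)⁻¹ with hr
    have hr2 : r ^ 2 = q⁻¹ := by rw [hr, inv_pow, Real.sq_sqrt hq0]
    have hx : (fun i => r * y i) ∈ S n := by
      constructor
      · rw [← mul_sum, hy, mul_zero]
      · simp only [mul_pow]; rw [← mul_sum, hr2, ← hq]; exact inv_mul_cancel₀ h0.ne'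
    have h1 := h _ hx
    have h2 : lapForm w (fun i => r * y i) = q⁻¹ * lapForm w y := by
      rw [← hr2]
      unfold lapForm
      rw [mul_div_assoc', mul_sum]
      congr 1
      refine sum_congr rfl fun i _ => ?_
      rw [mul_sum]
      exact sum_congr rfl fun j _ => by ring
    rw [h2] at h1
    calc l * q ≤ (q⁻¹ * lapForm w y) * q := mul_le_mul_of_nonneg_right h1 hq0
      _ = lapForm w y := by field_simp

/-- the first-order condition at a minimiser -/
lemma first_order (w : Fin n → Fin n → ℝ) (l : ℝ) (a : Fin n → ℝ) (ha : a ∈ S n)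
    (hal : lapForm w a = l) (h : ∀ x ∈ S n, l ≤ lapForm w x) (z : Fin n → ℝ)
    (hz : ∑ i, z i = 0) : B w a z = l * ∑ i, a i * z i := by
  set L := B w a z - l * ∑ i, a i * z i with hL
  set Q := lapForm w z - l * ∑ i, z i ^ 2 with hQ
  have key : ∀ ε : ℝ, 0 ≤ 2 * ε * L + ε ^ 2 * Q := by
    intro ε
    have h1 := lam2_le w l h (fun i => 1 * a i + ε * z i) (by
      rw [sum_add_distrib, ← mul_sum, ← mul_sum, ha.1, hz]; ring)
    have h2 : lapForm w (fun i => 1 * a i + ε * z i) =
        lapForm w a + 2 * ε * B w a z + ε ^ 2 * lapForm w z := by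
      rw [lapForm_eq, B_add_right, B_add_left, B_add_left, lapForm_eq, lapForm_eq, B_symm w z a]
      ring
    have h3 : ∑ i, (1 * a i + ε * z i) ^ 2 =
        1 + 2 * ε * (∑ i, a i * z i) + ε ^ 2 * ∑ i, z i ^ 2 := by
      have e : (1 : ℝ) + 2 * ε * (∑ i, a i * z i) + ε ^ 2 * ∑ i, z i ^ 2 =
          ∑ i, a i ^ 2 + 2 * ε * (∑ i, a i * z i) + ε ^ 2 * ∑ i, z i ^ 2 := by rw [ha.2]
      rw [e, mul_sum, mul_sum, ← sum_add_distrib, ← sum_add_distrib]
      exact sum_congr rfl fun i _ => by ring
    rw [h2, h3, hal] at h1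
    have : 2 * ε * L + ε ^ 2 * Q = (l + 2 * ε * B w a z + ε ^ 2 * lapForm w z) -
        l * (1 + 2 * ε * (∑ i, a i * z i) + ε ^ 2 * ∑ i, z i ^ 2) := by
      rw [hL, hQ]; ring
    rw [this]; linarith
  have hL0 : L = 0 := by
    by_contra hne
    have hpos : 0 < |Q| + 1 := by positivity
    have h1 := key (-L / (|Q| + 1))
    have h2 : 2 * (-L / (|Q| + 1)) * L + (-L / (|Q| + 1)) ^ 2 * Q =
        (L ^ 2 / (|Q| + 1) ^ 2) * (Q - 2 * (|Q| + 1)) := by
      field_simp
      ring
    rw [h2] at h1
    have h3 : 0 < L ^ 2 / (|Q| + 1) ^ 2 := by positivity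
    have h4 := le_abs_self Q
    have h5 := abs_nonneg Q
    have : Q - 2 * (|Q| + 1) < 0 := by linarith
    nlinarith
  rw [hL] at hL0; linarith

/-- **Main theorem.** -/
theorem result (n : ℕ) (hn : 2 ≤ n) (w : Fin n → Fin n → ℝ) (hs : ∀ i j, w i j = w j i)
    (h0 : ∀ i j, 0 ≤ w i j) (h1 : ∀ i j, w i j ≤ 1) :
    1 + 2 / n * (lam2 w * lam2 (fun i j => 1 - w i j)) ≤ lam2 w + lam2 (fun i j => 1 - w i j) ∧
      1 ≤ lam2 w + lam2 (fun i j => 1 - w i j) := by
  have nonneg : ∀ u : Fin n → Fin n → ℝ, (∀ i j, 0 ≤ u i j) → 0 ≤ lam2 u := by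
    intro u hu
    refine Real.sInf_nonneg ?_
    rintro _ ⟨z, _, rfl⟩
    exact div_nonneg (sum_nonneg fun i _ => sum_nonneg fun j _ =>
      mul_nonneg (hu i j) (sq_nonneg _)) zero_le_two
  have nx := nonneg w h0
  have ny := nonneg (fun i j => 1 - w i j) (fun i j => by linarith [h1 i j])
  obtain ⟨a, ha, hax, hamin⟩ := exists_min hn w
  obtain ⟨b, hb, hby, hbmin⟩ := exists_min hn (fun i j => 1 - w i j)
  set x := lam2 w with hx
  set y := lam2 (fun i j => 1 - w i j) with hy
  have hn0 : (2 : ℝ) ≤ n := by exact_mod_cast hn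
  have hnpos : (0 : ℝ) < n := by linarith
  have fa : ∀ z : Fin n → ℝ, ∑ i, z i = 0 → B w a z = x * ∑ i, a i * z i :=
    fun z hz => first_order w x a ha hax hamin z hz
  have fb : ∀ z : Fin n → ℝ, ∑ i, z i = 0 → B w b z = (n - y) * ∑ i, b i * z i := by
    intro z hz
    have h2 := first_order _ y b hb hby hbmin z hz
    rw [B_compl w b z hb.1] at h2
    linarith
  have haa : ∑ i, a i * a i = 1 := by rw [← ha.2]; exact sum_congr rfl fun i _ => by ring
  have hbb : ∑ i, b i * b i = 1 := by rw [← hb.2]; exact sum_congr rfl fun i _ => by ring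
  -- `x + y ≤ n`
  have hxy : x + y ≤ n := by
    have h2 := hamin b hb
    rw [lapForm_eq, fb b hb.1, hbb] at h2
    linarith
  -- it suffices to bound the product
  have main : (n - 2 * x) * (n - 2 * y) ≤ n * (n - 2) := by
    have hr : (0 : ℝ) ≤ n * (n - 2) := mul_nonneg hnpos.le (by linarith)
    rcases le_or_gt (n - 2 * x) 0 with hX | hX
    · have : 0 ≤ n - 2 * y := by linarith
      exact (mul_nonpos_of_nonpos_of_nonneg hX this).trans hr
    rcases le_or_gt (n - 2 * y) 0 with hY | hY
    · have : 0 ≤ n - 2 * x := by linarith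
      exact (mul_nonpos_of_nonneg_of_nonpos this hY).trans hr
    set X := n - 2 * x with hXd
    set Y := n - 2 * y with hYd
    have hab : ∑ i, a i * b i = 0 := by
      have e1 := fa b hb.1
      have e2 := fb a ha.1
      rw [B_symm, e1] at e2
      have e3 : ∑ i, b i * a i = ∑ i, a i * b i := sum_congr rfl fun i _ => mul_comm _ _
      rw [e3] at e2
      have : (n - y - x) * ∑ i, a i * b i = 0 := by linarith
      rcases mul_eq_zero.1 this with h | h
      · exfalso; linarith
      · exact h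
    have hba : ∑ i, b i * a i = 0 := by
      rw [← hab]; exact sum_congr rfl fun i _ => mul_comm _ _
    set s := √X with hsd
    set t := √Y with htd
    have hs2 : s * s = X := Real.mul_self_sqrt hX.le
    have ht2 : t * t = Y := Real.mul_self_sqrt hY.le
    set p : Fin n → ℝ := fun i => s * b i + t * a i with hp
    have hp0 : ∑ i, p i = 0 := by
      simp only [hp]; rw [sum_add_distrib, ← mul_sum, ← mul_sum, ha.1, hb.1]; ring
    have hdot : ∀ z : Fin n → ℝ, ∑ i, p i * z i = s * (∑ i, b i * z i) + t * ∑ i, a i * z i := by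
      intro z
      rw [mul_sum, mul_sum, ← sum_add_distrib]
      exact sum_congr rfl fun i _ => by simp only [hp]; ring
    have hbp : ∑ i, b i * p i = s := by
      have : ∑ i, b i * p i = s * (∑ i, b i * b i) + t * ∑ i, a i * b i := by
        rw [← hdot]; exact sum_congr rfl fun i _ => mul_comm _ _
      rw [this, hbb, hab]; ring
    have hap : ∑ i, a i * p i = t := by
      have : ∑ i, a i * p i = s * (∑ i, b i * a i) + t * ∑ i, a i * a i := by
        rw [← hdot]; exact sum_congr rfl fun i _ => mul_comm _ _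
      rw [this, haa, hba]; ring
    have hpp : ∑ i, p i * p i = X + Y := by
      rw [hdot, hbp, hap, hs2, ht2]
    have hB : ∀ z : Fin n → ℝ, ∑ i, z i = 0 →
        B w p z = s * ((n - y) * ∑ i, b i * z i) + t * (x * ∑ i, a i * z i) := by
      intro z hz
      rw [← fb z hz, ← fa z hz]
      exact B_add_left w z b a s t
    -- apply the norm bound with the signed weights `2w - 1`
    set σ : Fin n → Fin n → ℝ := fun i j => 2 * w i j - 1 with hσ
    have hσs : ∀ i j, σ i j = σ j i := fun i j => by simp only [hσ]; rw [hs]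
    have hσ1 : ∀ i j, |σ i j| ≤ 1 := fun i j => by
      rw [abs_le]; simp only [hσ]
      constructor <;> linarith [h0 i j, h1 i j]
    have bd := Q229.Spread.bound hσs hσ1 p
    have hW : Q229.Spread.W2 p = 2 * n * (X + Y) := by
      have : B (fun _ _ => 1) p p = n * (X + Y) := by rw [B_one, hpp, hp0]; ring
      have e : Q229.Spread.W2 p = 2 * B (fun _ _ => 1) p p := by
        unfold Q229.Spread.W2 Q229.Spread.w B
        rw [mul_div_cancel₀ _ (two_ne_zero)]
        exact sum_congr rfl fun i _ => sum_congr rfl fun j _ => by ring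
      rw [e, this]; ring
    have hC : Q229.Spread.C2 σ p = 0 := by
      have e : Q229.Spread.C2 σ p = 4 * B w p p - 2 * B (fun _ _ => 1) p p := by
        unfold Q229.Spread.C2 Q229.Spread.w B
        have : ∀ i j, σ i j * (p i - p j) ^ 2 = 2 * (w i j * ((p i - p j) * (p i - p j))) -
            1 * ((p i - p j) * (p i - p j)) := fun i j => by simp only [hσ]; ring
        simp only [this, sum_sub_distrib, ← mul_sum]
        ring
      rw [e, hB p hp0, B_one, hpp, hp0, hbp, hap]
      have : 4 * (s * ((n - y) * s) + t * (x * t)) = 4 * ((n - y) * X + x * Y) := by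
        rw [← hs2, ← ht2]; ring
      rw [this, hXd, hYd]; ring
    set h : Fin n → ℝ := Q229.Spread.hv σ p with hh
    -- the pairing of `h` with a vector orthogonal to `1`
    have pair : ∀ z : Fin n → ℝ, ∑ i, h i * z i = 2 * B w p z - B (fun _ _ => 1) p z := by
      intro z
      have e1 : ∑ i, h i * z i = ∑ i, ∑ j, σ i j * (p i - p j) * z i := by
        refine sum_congr rfl fun i _ => ?_
        simp only [hh, Q229.Spread.hv]
        rw [sum_mul]
      have e2 : ∑ i, ∑ j, σ i j * (p i - p j) * z i =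
          -∑ i, ∑ j, σ i j * (p i - p j) * z j := by
        rw [sum_comm, ← sum_neg_distrib]
        refine sum_congr rfl fun i _ => ?_
        rw [← sum_neg_distrib]
        refine sum_congr rfl fun j _ => ?_
        rw [hσs j i]; ring
      have e3 : 2 * ∑ i, h i * z i = ∑ i, ∑ j, σ i j * ((p i - p j) * (z i - z j)) := by
        rw [two_mul]
        nth_rewrite 2 [e1]
        rw [e2, e1, ← sub_eq_add_neg, ← sum_sub_distrib]
        refine sum_congr rfl fun i _ => ?_
        rw [← sum_sub_distrib]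
        exact sum_congr rfl fun j _ => by ring
      have e4 : ∑ i, ∑ j, σ i j * ((p i - p j) * (z i - z j)) =
          2 * (2 * B w p z - B (fun _ _ => 1) p z) := by
        unfold B
        have : ∀ i j, σ i j * ((p i - p j) * (z i - z j)) =
            2 * (w i j * ((p i - p j) * (z i - z j))) - 1 * ((p i - p j) * (z i - z j)) :=
          fun i j => by simp only [hσ]; ring
        simp only [this, sum_sub_distrib, ← mul_sum]
        ring
      linarith
    have hsum : ∑ i, h i = 0 := by
      have := pair (fun _ => 1)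
      simp only [mul_one] at this
      rw [this]
      unfold B; simp
    have hpair0 : ∀ z : Fin n → ℝ, ∑ i, z i = 0 →
        ∑ i, h i * z i = s * Y * (∑ i, b i * z i) - t * X * ∑ i, a i * z i := by
      intro z hz
      rw [pair, hB z hz, B_one, hdot, hp0, hXd, hYd]; ring
    have hbh : ∑ i, b i * h i = s * Y := by
      have : ∑ i, b i * h i = ∑ i, h i * b i := sum_congr rfl fun i _ => mul_comm _ _
      rw [this, hpair0 b hb.1, hbb, hab]; ring
    have hah : ∑ i, a i * h i = -(t * X) := by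
      have : ∑ i, a i * h i = ∑ i, h i * a i := sum_congr rfl fun i _ => mul_comm _ _
      rw [this, hpair0 a ha.1, haa, hba]; ring
    have hhh : ∑ i, h i ^ 2 = X * Y * (X + Y) := by
      have : ∑ i, h i ^ 2 = ∑ i, h i * h i := sum_congr rfl fun i _ => by ring
      rw [this, hpair0 h hsum, hbh, hah]
      have : s * Y * (s * Y) - t * X * -(t * X) = (s * s) * Y ^ 2 + (t * t) * X ^ 2 := by ring
      rw [this, hs2, ht2]; ring
    rw [hhh, hW, hC, abs_zero, add_zero] at bd
    have hpos : 0 < X + Y := by linarith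
    have : X * Y * (X + Y) ≤ (n * (n - 2)) * (X + Y) := by
      calc X * Y * (X + Y) ≤ (n / 2 - 1) * (2 * n * (X + Y)) := bd
        _ = (n * (n - 2)) * (X + Y) := by ring
    exact le_of_mul_le_mul_right this hpos
  have e : x + y - 2 / n * (x * y) - 1 = (n * (n - 2) - (n - 2 * x) * (n - 2 * y)) / (2 * n) := by
    field_simp; ring
  have : 0 ≤ x + y - 2 / n * (x * y) - 1 := by
    rw [e]; exact div_nonneg (by linarith) (by linarith)
  have hxy0 : 0 ≤ 2 / (n : ℝ) * (x * y) :=
    mul_nonneg (by positivity) (mul_nonneg nx ny)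
  exact ⟨by linarith, by linarith⟩

end Pool.Agent.U343.Spread
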