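import Mathlib
import Pool.Agent.U343.Reg5

/-!
# Linear equations along a geometric progression

For `k ≥ 3` let `r k N` be the largest size of a subset of `{1, ..., N}` without arithmetic
progressions of length `k` (`k = 3`: the function `r_3` of the question).

Let the values of `f` along one geometric progression `n = n₀ b ^ m` satisfy a linear equation
`∑ c_i(n) f(b ^ i n) = 0` for all large `m`, with coefficients polynomials in `n`, not all zero
(equations of Mahler type; `m ↦ f (n₀ b ^ m)` is a `q`-holonomic sequence, `q = b`; the coefficient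
of highest index may vanish to lower order than the others). If `f n = o(n)` along the progression,
then `|f n| ≤ (r k n) ^ (1 - δ)` there. So no such sequence has the order of magnitude of `r k`
along the progression: neither `r k` itself nor anything asymptotic to it satisfies such an
equation.
-/

set_option autoImplicit false

open Filter Finset Topology

namespace Pool.Agent.U343.RegMahler

open Pool.Agent.H617R3.AP Pool.Agent.U343.Reg

theorem mahler (k : ℕ) (hk : 3 ≤ k) (b n₀ : ℕ) (hb : 2 ≤ b) (hn₀ : 1 ≤ n₀) (f : ℕ → ℂ)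
    (hf : IsHolonomic b n₀ f) :
    (Tendsto (fun m : ℕ => f (n₀ * b ^ m) / ((n₀ * b ^ m : ℕ) : ℂ)) atTop (𝓝 0) →
      ∃ δ : ℝ, 0 < δ ∧ ∀ᶠ m : ℕ in atTop,
        ‖f (n₀ * b ^ m)‖ ≤ (r k (n₀ * b ^ m) : ℝ) ^ (1 - δ)) ∧
    (∀ c C : ℝ, 0 < c → ¬ ∀ᶠ m : ℕ in atTop, c * r k (n₀ * b ^ m) ≤ ‖f (n₀ * b ^ m)‖ ∧
        ‖f (n₀ * b ^ m)‖ ≤ C * r k (n₀ * b ^ m)) ∧
    ¬ Tendsto (fun n : ℕ => (r k n : ℂ) / f n) atTop (𝓝 1) :=
  ⟨holonomic_power hk hb hn₀ hf, fun _ _ hc => no_order hk hb hn₀ hf hc,
    no_formula hk hb hn₀ hf⟩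

end Pool.Agent.U343.RegMahler
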